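import Pool.Agent.T2H32.HK.Law

set_option autoImplicit false

/-! # The Hawkins random sieve exists -/

open MeasureTheory ProbabilityTheory Filter Topology Finset
open scoped ENNReal

namespace Pool.Agent.T2H32.HK

theorem exists_indep2 (t : ℕ × ℕ → ℝ) (h0 : ∀ k, 0 ≤ t k) (h1 : ∀ k, t k ≤ 1) :
    ∃ (Ω : Type) (_ : MeasurableSpace Ω) (P : Measure Ω) (A : ℕ × ℕ → Set Ω),
      (∀ k, MeasurableSet (A k)) ∧ iIndepSet A P ∧ ∀ k, P.real (A k) = t k := by
  classical
  set ν : ℕ × ℕ → Measure Bool := fun k => bernoulliMeasure true false ⟨t k, h0 k, h1 k⟩ with hν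
  have hνp : ∀ k, IsProbabilityMeasure (ν k) := fun k => by
    simp only [hν]
    infer_instance
  refine ⟨ℕ × ℕ → Bool, inferInstance, Measure.infinitePi ν, fun k => {ω | ω k = true}, ?_, ?_, ?_⟩
  · intro k
    exact (measurable_pi_apply (X := fun _ : ℕ × ℕ => Bool) k) (measurableSet_singleton true)
  · rw [iIndepSet_iff]
    intro s f hf
    have h2 : iIndepFun (fun (i : ℕ × ℕ) (ω : ℕ × ℕ → Bool) => ω i) (Measure.infinitePi ν) :=
      iIndepFun_infinitePi (P := ν) (X := fun _ x => x) (fun _ => measurable_id)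
    refine h2.meas_biInter fun i hi => ?_
    have h3 : MeasurableSpace.generateFrom {{ω : ℕ × ℕ → Bool | ω i = true}} ≤
        MeasurableSpace.comap (fun ω : ℕ × ℕ → Bool => ω i) inferInstance := by
      refine MeasurableSpace.generateFrom_le ?_
      rintro u rfl
      exact ⟨{true}, measurableSet_singleton true, rfl⟩
    exact h3 _ (hf i hi)
  · intro k
    have h2 : (Measure.infinitePi ν) {ω | ω k = true} = ν k {true} := by
      rw [← Measure.infinitePi_map_eval ν k, Measure.map_apply (measurable_pi_apply k)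
        (measurableSet_singleton true)]
      rfl
    rw [measureReal_def, h2, ← measureReal_def]
    simp only [hν]
    rw [bernoulliMeasure_real_apply_of_mem_of_notMem _ (measurableSet_singleton true) rfl (by simp)]

/-- the sieve -/
def HP {Ω : Type} (E : ℕ → ℕ → Set Ω) (ω : Ω) (k : ℕ) : Prop :=
  2 ≤ k ∧ ∀ j, (hj : j < k) → HP E ω j → ω ∉ E j k
termination_by k

theorem exists_model : ∃ (Ω : Type) (_ : MeasurableSpace Ω) (P : Measure Ω) (E : ℕ → ℕ → Set Ω)
    (A : ℕ → Set Ω), Model P E A := by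
  obtain ⟨Ω, i, P, B, h1, h2, h3⟩ := exists_indep2 (fun q => if 2 ≤ q.1 then 1 / (q.1 : ℝ) else 0)
    (fun q => by split_ifs <;> positivity)
    (fun q => by
      split_ifs with h
      · have : (2 : ℝ) ≤ q.1 := by exact_mod_cast h
        rw [div_le_one (by linarith)]
        linarith
      · exact zero_le_one)
  refine ⟨Ω, i, P, fun j k => B (j, k), fun k => {ω | HP (fun j k => B (j, k)) ω k}, ?_, ?_, ?_, ?_⟩
  · intro j k
    exact h1 _
  · exact h2
  · intro j k hj hk
    rw [h3, if_pos hj]
  · intro ω k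
    show HP (fun j k => B (j, k)) ω k ↔ _
    rw [HP]
    rfl

end Pool.Agent.T2H32.HK
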