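import Mathlib
import Pool.Agent.T2H32.CM.Model

set_option autoImplicit false

/-! # The Hawkins random sieve: asymptotics of the probability of a long gap -/

open MeasureTheory ProbabilityTheory Filter Topology Finset
open Pool.Agent.T2H32.CM (m tendsto_L ev_nonneg ceil_err tendsto_mL log_bd)

namespace Pool.Agent.T2H32.HK

variable (ψ : ℕ → ℝ) (hψ : Tendsto (fun k : ℕ => ψ k / Real.log k) atTop (𝓝 0))
include hψ

theorem psi_le : ∀ᶠ k : ℕ in atTop, |ψ k| ≤ Real.log k / 2 := by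
  have h1 := hψ.abs
  rw [abs_zero] at h1
  filter_upwards [h1.eventually_lt_const (show (0 : ℝ) < 1 / 2 by norm_num), tendsto_L.eventually_gt_atTop 0]
    with k hk hL
  rw [abs_div, abs_of_pos hL, div_lt_iff₀ hL] at hk
  linarith

theorem h_small : ∀ᶠ k : ℕ in atTop, Real.exp (-ψ k) / k ≤ 1 := by
  filter_upwards [psi_le ψ hψ, eventually_ge_atTop 1] with k hk hk1
  have hk0 : (0 : ℝ) < k := by exact_mod_cast hk1
  rw [div_le_one hk0]
  have h1 : -ψ k ≤ Real.log k := by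
    have h2 := neg_abs_le (ψ k)
    have h3 := Real.log_natCast_nonneg k
    linarith
  calc Real.exp (-ψ k) ≤ Real.exp (Real.log k) := Real.exp_le_exp.2 h1
    _ = k := Real.exp_log hk0

theorem trunc_bd (C : ℝ) (hC : 0 ≤ C) : ∀ᶠ k : ℕ in atTop, ∀ z : ℝ, 1 ≤ z → z ≤ Real.log k + C →
    (1 - z⁻¹) ^ m ψ k ≤ Real.exp (2 * C) * (Real.exp (-ψ k) / k) := by
  filter_upwards [psi_le ψ hψ, ceil_err ψ hψ, tendsto_L.eventually_gt_atTop 0, eventually_ge_atTop 1]
    with k hk hm hL hk1 z hz1 hz2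
  have hk0 : (0 : ℝ) < k := by exact_mod_cast hk1
  have hz0 : 0 < z := by linarith
  set ℓ := Real.log k with hℓ
  have h1 : (1 - z⁻¹) ^ m ψ k ≤ Real.exp (-(m ψ k / z)) := by
    have h2 : 1 - z⁻¹ ≤ Real.exp (-z⁻¹) := by
      have := Real.add_one_le_exp (-z⁻¹)
      linarith
    have h3 : 0 ≤ 1 - z⁻¹ := by
      have : z⁻¹ ≤ 1 := inv_le_one_of_one_le₀ hz1
      linarith
    calc (1 - z⁻¹) ^ m ψ k ≤ Real.exp (-z⁻¹) ^ m ψ k := by gcongr
      _ = _ := by
        rw [← Real.exp_nat_mul]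
        congr 1
        ring
  refine h1.trans ?_
  have h2 : Real.exp (2 * C) * (Real.exp (-ψ k) / k) = Real.exp (-(ℓ + ψ k - 2 * C)) := by
    have h3 : (k : ℝ) = Real.exp ℓ := (Real.exp_log hk0).symm
    rw [h3, div_eq_mul_inv, ← Real.exp_neg, ← Real.exp_add, ← Real.exp_add]
    congr 1
    ring
  rw [h2]
  apply Real.exp_le_exp.2
  have h3 : ℓ + ψ k - 2 * C ≤ m ψ k / z := by
    have h4 : m ψ k / (ℓ + C) ≤ m ψ k / z := by gcongr
    refine le_trans ?_ h4
    have h5 : 0 < ℓ + C := by linarith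
    rw [le_div_iff₀ h5]
    have h6 : ℓ ^ 2 + ψ k * ℓ ≤ m ψ k := by linarith [hm.1]
    have h7 : ψ k ≤ ℓ / 2 := (le_abs_self _).trans hk
    have h8 : 0 ≤ C * (2 * C + (ℓ - ψ k)) := mul_nonneg hC (by linarith)
    nlinarith
  linarith

theorem q_lim (Zs : ℕ → ℝ) (L : ℝ) (hZ : Tendsto (fun k : ℕ => Zs k - Real.log k) atTop (𝓝 L)) :
    Tendsto (fun k : ℕ => (1 - (Zs k)⁻¹) ^ m ψ k * (k * Real.exp (ψ k))) atTop (𝓝 (Real.exp (L - 1 / 2))) := by
  -- `Z / log → 1`
  have hZL : Tendsto (fun k : ℕ => Zs k / Real.log k) atTop (𝓝 1) := by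
    have h4 := (hZ.div_atTop tendsto_L).add_const 1
    rw [zero_add] at h4
    refine h4.congr' ?_
    filter_upwards [tendsto_L.eventually_gt_atTop 0] with k hk
    field_simp
    ring
  have hZtop : Tendsto Zs atTop atTop := by
    have := hZL.pos_mul_atTop one_pos tendsto_L
    refine this.congr' ?_
    filter_upwards [tendsto_L.eventually_gt_atTop 0] with k hk
    field_simp
  have hxL : Tendsto (fun k : ℕ => Real.log k / Zs k) atTop (𝓝 1) := by
    have := hZL.inv₀ one_ne_zero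
    rw [inv_one] at this
    exact this.congr fun k => inv_div _ _
  -- `m x² → 1`
  have h1 : Tendsto (fun k : ℕ => (m ψ k : ℝ) / Zs k ^ 2) atTop (𝓝 1) := by
    have := (tendsto_mL ψ hψ).mul (hxL.pow 2)
    rw [one_pow, mul_one] at this
    refine this.congr' ?_
    filter_upwards [tendsto_L.eventually_gt_atTop 0, hZtop.eventually_gt_atTop 0] with k hk hk2
    field_simp
  -- `m x³ → 0`
  have h2 : Tendsto (fun k : ℕ => (m ψ k : ℝ) / Zs k ^ 3) atTop (𝓝 0) := by
    have := h1.div_atTop hZtop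
    refine this.congr' ?_
    filter_upwards [hZtop.eventually_gt_atTop 0] with k hk2
    field_simp
  -- `m x - (ℓ + ψ) → -L`
  have h3 : Tendsto (fun k : ℕ => (m ψ k : ℝ) / Zs k - (Real.log k + ψ k)) atTop (𝓝 (-L)) := by
    have e1 : Tendsto (fun k : ℕ => ((m ψ k : ℝ) - (Real.log k ^ 2 + ψ k * Real.log k)) / Zs k) atTop (𝓝 0) := by
      have : Tendsto (fun k : ℕ => 1 / Zs k) atTop (𝓝 0) := tendsto_const_nhds.div_atTop hZtop
      refine squeeze_zero' ?_ ?_ this
      · filter_upwards [ceil_err ψ hψ, hZtop.eventually_gt_atTop 0] with k hk hk2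
        exact div_nonneg hk.1 hk2.le
      · filter_upwards [ceil_err ψ hψ, hZtop.eventually_gt_atTop 0] with k hk hk2
        gcongr
        exact hk.2
    have e2 : Tendsto (fun k : ℕ => (Real.log k + ψ k) / Zs k) atTop (𝓝 1) := by
      have := (hψ.const_add 1).mul hxL
      rw [add_zero, mul_one] at this
      refine this.congr' ?_
      filter_upwards [tendsto_L.eventually_gt_atTop 0, hZtop.eventually_gt_atTop 0] with k hk hk2
      field_simp
    have e3 := e1.sub (hZ.mul e2)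
    rw [mul_one, zero_sub] at e3
    refine e3.congr' ?_
    filter_upwards [hZtop.eventually_gt_atTop 0] with k hk2
    field_simp
    ring
  -- the logarithm
  have h4 : Tendsto (fun k : ℕ => (m ψ k : ℝ) * (-Real.log (1 - (Zs k)⁻¹) - ((Zs k)⁻¹ + (Zs k)⁻¹ ^ 2 / 2)))
      atTop (𝓝 0) := by
    have : Tendsto (fun k : ℕ => 2 * ((m ψ k : ℝ) / Zs k ^ 3)) atTop (𝓝 0) := by
      have := h2.const_mul 2
      rwa [mul_zero] at this
    refine squeeze_zero_norm' ?_ this
    filter_upwards [hZtop.eventually_ge_atTop 2] with k hk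
    have hx0 : 0 ≤ (Zs k)⁻¹ := by positivity
    have hx1 : (Zs k)⁻¹ ≤ 1 / 2 := by
      rw [inv_le_comm₀ (by linarith) (by norm_num)]
      norm_num
      exact hk
    have := log_bd _ hx0 hx1
    rw [Real.norm_eq_abs, abs_mul, abs_of_nonneg (by positivity : (0 : ℝ) ≤ m ψ k)]
    calc (m ψ k : ℝ) * |-Real.log (1 - (Zs k)⁻¹) - ((Zs k)⁻¹ + (Zs k)⁻¹ ^ 2 / 2)|
        ≤ (m ψ k : ℝ) * (2 * (Zs k)⁻¹ ^ 3) := by gcongr
      _ = 2 * ((m ψ k : ℝ) / Zs k ^ 3) := by
        rw [inv_pow]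
        ring
  have h5 : Tendsto (fun k : ℕ => (m ψ k : ℝ) * Real.log (1 - (Zs k)⁻¹) + (Real.log k + ψ k)) atTop
      (𝓝 (L - 1 / 2)) := by
    have e := ((h4.add h3).add (h1.div_const 2)).neg
    have e' : -(0 + -L + 1 / 2) = L - 1 / 2 := by ring
    rw [e'] at e
    refine e.congr fun k => ?_
    rw [inv_eq_one_div]
    ring
  have h6 := (Real.continuous_exp.tendsto _).comp h5
  refine h6.congr' ?_
  filter_upwards [hZtop.eventually_ge_atTop 2, eventually_ge_atTop 1] with k hk hk1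
  have hk0 : (0 : ℝ) < k := by exact_mod_cast hk1
  have hx1 : (Zs k)⁻¹ ≤ 1 / 2 := by
    rw [inv_le_comm₀ (by linarith) (by norm_num)]
    norm_num
    exact hk
  have hx : 0 < 1 - (Zs k)⁻¹ := by linarith
  simp only [Function.comp_apply]
  rw [Real.exp_add, Real.exp_add, Real.exp_log hk0, Real.exp_nat_mul, Real.exp_log hx]

end Pool.Agent.T2H32.HK
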