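import Pool.Agent.T2H32.HK.Mart

set_option autoImplicit false

/-! # The Hawkins random sieve: convergence of Mertens' product -/

open MeasureTheory ProbabilityTheory Filter Topology Finset
open scoped ENNReal NNReal

namespace Pool.Agent.T2H32.HK

variable {Ω : Type*} [MeasurableSpace Ω] {P : Measure Ω} {E : ℕ → ℕ → Set Ω} {A : ℕ → Set Ω}

/-- bound for the second moments -/
noncomputable def RR : ℝ := 1 + ∑' k : ℕ, 2 / ((k : ℝ) + 1) ^ (3 / 2 : ℝ)

theorem RR_summable : Summable (fun k : ℕ => 2 / ((k : ℝ) + 1) ^ (3 / 2 : ℝ)) := by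
  have h1 : Summable (fun k : ℕ => 1 / (((k + 1 : ℕ) : ℝ)) ^ (3 / 2 : ℝ)) :=
    (summable_nat_add_iff 1).2 (Real.summable_one_div_nat_rpow.2 (by norm_num))
  refine (h1.mul_left 2).congr fun k => ?_
  push_cast
  rw [mul_one_div]

theorem M_sq_int (h : Model P E A) (n : ℕ) : Integrable (fun ω => M A n ω ^ 2) P :=
  phi_int h (n + 2) (fun T => ((y T)⁻¹ - ∑ i ∈ range n, 1 / ((i : ℝ) + 1)) ^ 2)

theorem E_M_sq (h : Model P E A) (n : ℕ) :
    ∫ ω, M A n ω ^ 2 ∂P ≤ 1 + ∑ k ∈ range n, 2 / ((k : ℝ) + 1) ^ (3 / 2 : ℝ) := by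
  have := prob h
  induction n with
  | zero =>
    have e : (fun ω => M A 0 ω ^ 2) = fun _ => (1 : ℝ) := by
      funext ω
      unfold M
      rw [Z_two h]
      simp
    rw [e]
    simp
  | succ n ih =>
    have h1 := int_phi_D h n (fun T => 2 * ((y T)⁻¹ - ∑ i ∈ range n, 1 / ((i : ℝ) + 1)) * ((y T)⁻¹ / (n + 1)))
    have h2 := D_sq h n
    have e : (fun ω => M A (n + 1) ω ^ 2) = fun ω => M A n ω ^ 2 +
        (2 * M A n ω * (M A (n + 1) ω - M A n ω) + (M A (n + 1) ω - M A n ω) ^ 2) := by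
      funext ω
      ring
    have e2 : (fun ω => 2 * M A n ω * (M A (n + 1) ω - M A n ω)) = fun ω =>
        2 * ((y (S A (n + 2) ω))⁻¹ - ∑ i ∈ range n, 1 / ((i : ℝ) + 1)) * ((y (S A (n + 2) ω))⁻¹ / (n + 1)) *
          (ind (A (n + 2)) ω - y (S A (n + 2) ω)) := by
      funext ω
      rw [M_succ h n ω]
      unfold M Z
      ring
    have i3 : Integrable (fun ω => M A n ω * M A (n + 1) ω) P := by
      obtain ⟨C, hC⟩ := phi_bdd A (n + 2) (fun T => (y T)⁻¹ - ∑ i ∈ range n, 1 / ((i : ℝ) + 1))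
      exact (M_int h (n + 1)).bdd_mul (M_int h n).aestronglyMeasurable (Eventually.of_forall hC)
    have i1 : Integrable (fun ω => 2 * M A n ω * (M A (n + 1) ω - M A n ω)) P := by
      have e3 : (fun ω => 2 * M A n ω * (M A (n + 1) ω - M A n ω)) =
          fun ω => 2 * (M A n ω * M A (n + 1) ω) - 2 * M A n ω ^ 2 := by
        funext ω; ring
      rw [e3]
      exact (i3.const_mul 2).sub ((M_sq_int h n).const_mul 2)
    have i2 : Integrable (fun ω => (M A (n + 1) ω - M A n ω) ^ 2) P := by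
      have e3 : (fun ω => (M A (n + 1) ω - M A n ω) ^ 2) =
          fun ω => M A (n + 1) ω ^ 2 - 2 * (M A n ω * M A (n + 1) ω) + M A n ω ^ 2 := by
        funext ω; ring
      rw [e3]
      exact ((M_sq_int h (n + 1)).sub (i3.const_mul 2)).add (M_sq_int h n)
    have i4 : Integrable (fun ω => 2 * M A n ω * (M A (n + 1) ω - M A n ω) + (M A (n + 1) ω - M A n ω) ^ 2) P :=
      i1.add i2
    rw [e, integral_add (M_sq_int h n) i4, integral_add i1 i2, e2, h1, zero_add, sum_range_succ]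
    linarith

theorem E_M_sq_le (h : Model P E A) (n : ℕ) : ∫ ω, M A n ω ^ 2 ∂P ≤ RR := by
  refine (E_M_sq h n).trans ?_
  unfold RR
  have := RR_summable.sum_le_tsum (range n) (fun k _ => by positivity)
  linarith

theorem RR_pos : 0 < RR := by
  unfold RR
  have : 0 ≤ ∑' k : ℕ, 2 / ((k : ℝ) + 1) ^ (3 / 2 : ℝ) := tsum_nonneg fun k => by positivity
  linarith

theorem M_conv (h : Model P E A) : ∀ᵐ ω ∂P, ∃ c, Tendsto (fun n => M A n ω) atTop (𝓝 c) := by
  have := prob h
  refine (M_mart h).submartingale.exists_ae_tendsto_of_bdd (R := ⟨1 + RR, by linarith [RR_pos]⟩) fun n => ?_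
  rw [eLpNorm_one_eq_lintegral_enorm]
  have h1 : ∫⁻ ω, ‖M A n ω‖ₑ ∂P = ENNReal.ofReal (∫ ω, |M A n ω| ∂P) := by
    rw [← ofReal_integral_norm_eq_lintegral_enorm (M_int h n)]
    rfl
  rw [h1]
  have h2 : ∫ ω, |M A n ω| ∂P ≤ 1 + RR := by
    have h3 : ∫ ω, |M A n ω| ∂P ≤ ∫ ω, (1 + M A n ω ^ 2) ∂P := by
      refine integral_mono (M_int h n).abs ((integrable_const _).add (M_sq_int h n)) fun ω => ?_
      simp only
      have := sq_abs (M A n ω)
      nlinarith [sq_nonneg (|M A n ω| - 1), abs_nonneg (M A n ω)]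
    rw [integral_add (integrable_const _) (M_sq_int h n), integral_const, probReal_univ, one_smul] at h3
    linarith [E_M_sq_le h n]
  calc ENNReal.ofReal (∫ ω, |M A n ω| ∂P) ≤ ENNReal.ofReal (1 + RR) := ENNReal.ofReal_le_ofReal h2
    _ = _ := by
      rw [ENNReal.ofReal]
      congr 1
      exact Real.toNNReal_of_nonneg _

/-- almost surely `∏ (1 - 1/p)⁻¹ - log k` converges -/
theorem Z_conv (h : Model P E A) : ∀ᵐ ω ∂P, ∃ L, Tendsto (fun k => Z A k ω - Real.log k) atTop (𝓝 L) := by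
  filter_upwards [M_conv h] with ω ⟨c, hc⟩
  refine ⟨c + Real.eulerMascheroniConstant, ?_⟩
  rw [← tendsto_add_atTop_iff_nat 2]
  have h1 := Real.tendsto_harmonic_sub_log
  have h2 : Tendsto (fun n : ℕ => Real.log (n + 2 : ℕ) - Real.log n) atTop (𝓝 0) := by
    have h3 : Tendsto (fun n : ℕ => 1 + 2 / (n : ℝ)) atTop (𝓝 (1 + 0)) :=
      tendsto_const_nhds.add (tendsto_const_div_atTop_nhds_zero_nat 2)
    rw [add_zero] at h3
    have h4 := h3.log one_ne_zero
    rw [Real.log_one] at h4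
    refine h4.congr' ?_
    filter_upwards [eventually_ge_atTop 1] with n hn
    have : (0 : ℝ) < n := by exact_mod_cast hn
    rw [← Real.log_div (by positivity) (by positivity)]
    congr 1
    push_cast
    field_simp
  have h3 := (hc.add h1).sub h2
  rw [sub_zero] at h3
  refine h3.congr fun n => ?_
  have h4 : (harmonic n : ℝ) = ∑ i ∈ range n, 1 / ((i : ℝ) + 1) := by
    unfold harmonic
    push_cast
    refine sum_congr rfl fun i _ => ?_
    rw [one_div]
  rw [h4]
  unfold M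
  ring

/-- `E y ≤ C / log k` -/
theorem E_y_le (h : Model P E A) : ∃ C : ℝ, 0 < C ∧ ∀ k : ℕ, 3 ≤ k → ∫ ω, y (S A k ω) ∂P ≤ C / Real.log k := by
  have := prob h
  refine ⟨6 * (2 + 4 * RR), by linarith [RR_pos], fun k hk => ?_⟩
  obtain ⟨n, rfl⟩ : ∃ n, k = n + 2 := ⟨k - 2, by omega⟩
  set H : ℝ := ∑ i ∈ range n, 1 / ((i : ℝ) + 1) with hH
  have hH1 : 1 ≤ H := by
    rw [hH]
    have h1 : (fun i : ℕ => 1 / ((i : ℝ) + 1)) 0 ≤ ∑ i ∈ range n, 1 / ((i : ℝ) + 1) :=
      single_le_sum (f := fun i : ℕ => 1 / ((i : ℝ) + 1)) (fun i _ => by positivity)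
        (Finset.mem_range.2 (by omega : 0 < n))
    simpa using h1
  have hpt : ∀ ω, y (S A (n + 2) ω) ≤ 2 / H + 4 / H * M A n ω ^ 2 := by
    intro ω
    have hy := y_pos h (n + 2) ω
    have hy1 := y_le_one h (n + 2) ω
    have hM : M A n ω = (y (S A (n + 2) ω))⁻¹ - H := rfl
    rcases le_or_gt (H / 2) (y (S A (n + 2) ω))⁻¹ with h1 | h1
    · have h2 : y (S A (n + 2) ω) ≤ 2 / H := by
        have h3 := (le_inv_comm₀ (by positivity) hy).1 h1
        rwa [inv_div] at h3
      have : 0 ≤ 4 / H * M A n ω ^ 2 := by positivity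
      linarith
    · have h2 : H / 2 ≤ |M A n ω| := by
        rw [hM]
        rw [abs_of_neg (by linarith)]
        linarith
      have h3 : (H / 2) ^ 2 ≤ M A n ω ^ 2 := by
        rw [← sq_abs (M A n ω)]
        gcongr
      have h4 : H ≤ 4 / H * M A n ω ^ 2 := by
        have h5 : 4 / H * (H / 2) ^ 2 ≤ 4 / H * M A n ω ^ 2 := by gcongr
        have h6 : 4 / H * (H / 2) ^ 2 = H := by field_simp; norm_num
        linarith
      have : 0 ≤ 2 / H := by positivity
      linarith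
  have h1 : ∫ ω, y (S A (n + 2) ω) ∂P ≤ ∫ ω, (2 / H + 4 / H * M A n ω ^ 2) ∂P :=
    integral_mono (phi_int h (n + 2) y) ((integrable_const _).add ((M_sq_int h n).const_mul _)) hpt
  rw [integral_add (integrable_const _) ((M_sq_int h n).const_mul _), integral_const, probReal_univ, one_smul,
    integral_const_mul] at h1
  have h2 : 2 / H + 4 / H * ∫ ω, M A n ω ^ 2 ∂P ≤ (2 + 4 * RR) / H := by
    have h3 := E_M_sq_le h n
    have h4 : 4 / H * ∫ ω, M A n ω ^ 2 ∂P ≤ 4 / H * RR := by gcongr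
    calc _ ≤ 2 / H + 4 / H * RR := by linarith
      _ = _ := by ring
  refine h1.trans (h2.trans ?_)
  have h3 : Real.log ((n + 2 : ℕ) : ℝ) ≤ 6 * H := by
    have h4 := log_add_one_le_harmonic n
    have h5 : (harmonic n : ℝ) = H := by
      rw [hH]
      unfold harmonic
      push_cast
      refine sum_congr rfl fun i _ => ?_
      rw [one_div]
    rw [h5] at h4
    have h6 : Real.log ((n + 2 : ℕ) : ℝ) ≤ Real.log (((n + 1 : ℕ) : ℝ)) + 1 := by
      have h7 : ((n + 2 : ℕ) : ℝ) ≤ ((n + 1 : ℕ) : ℝ) * 2 := by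
        push_cast
        have : (0 : ℝ) ≤ n := Nat.cast_nonneg n
        linarith
      have h8 := Real.log_le_log (by positivity) h7
      rw [Real.log_mul (by positivity) (by norm_num)] at h8
      have h9 : Real.log 2 < 1 := by
        have := Real.log_two_lt_d9
        linarith
      linarith
    linarith
  have h4 : 0 < Real.log ((n + 2 : ℕ) : ℝ) := Real.log_pos (by
    have : 1 < n + 2 := by omega
    exact_mod_cast this)
  rw [div_le_div_iff₀ (by linarith) h4]
  have h5 := RR_pos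
  nlinarith

end Pool.Agent.T2H32.HK
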