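import Mathlib

set_option autoImplicit false

/-! # A strong law with random compensators -/

open MeasureTheory ProbabilityTheory Filter Topology Finset
open scoped ENNReal

namespace Pool.Agent.T2H32.HK

/-- interpolation between the points of a subsequence -/
theorem interp (F U : ℕ → ℝ) (hF : Monotone F) (hU : Monotone U) (hU0 : ∀ n, 0 ≤ U n)
    (hFtop : Tendsto F atTop atTop) (N : ℕ → ℕ) (hN1 : ∀ j : ℕ, (j : ℝ) ^ 2 ≤ F (N j))
    (hN2 : ∀ j : ℕ, F (N j) ≤ (j : ℝ) ^ 2 + 1) (hN3 : ∀ j n : ℕ, (j : ℝ) ^ 2 ≤ F n → N j ≤ n) (c : ℝ)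
    (h : Tendsto (fun j => U (N j) / F (N j)) atTop (𝓝 c)) : Tendsto (fun n => U n / F n) atTop (𝓝 c) := by
  set J : ℕ → ℕ := fun n => ⌊Real.sqrt (F n)⌋₊ with hJ
  have hJtop : Tendsto J atTop atTop :=
    tendsto_nat_floor_atTop.comp (Real.tendsto_sqrt_atTop.comp hFtop)
  have hq : Tendsto (fun j : ℕ => ((j : ℝ) ^ 2) / (((j : ℝ) + 1) ^ 2 + 1)) atTop (𝓝 1) := by
    have h1 : Tendsto (fun j : ℕ => 1 / (j : ℝ)) atTop (𝓝 0) := tendsto_one_div_atTop_nhds_zero_nat
    have h2 : Tendsto (fun j : ℕ => 1 / ((1 + 1 / (j : ℝ)) ^ 2 + (1 / (j : ℝ)) ^ 2)) atTop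
        (𝓝 (1 / ((1 + 0) ^ 2 + 0 ^ 2))) :=
      tendsto_const_nhds.div (((tendsto_const_nhds.add h1).pow 2).add (h1.pow 2)) (by norm_num)
    have e : (1 : ℝ) / ((1 + 0) ^ 2 + 0 ^ 2) = 1 := by norm_num
    rw [e] at h2
    refine h2.congr' ?_
    filter_upwards [eventually_ge_atTop 1] with j hj
    have : (0 : ℝ) < j := by exact_mod_cast hj
    field_simp
  have hlow : Tendsto (fun n => U (N (J n)) / F (N (J n)) * (((J n : ℝ) ^ 2) / (((J n : ℝ) + 1) ^ 2 + 1)))
      atTop (𝓝 c) := by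
    have := (h.comp hJtop).mul (hq.comp hJtop)
    rw [mul_one] at this
    exact this
  have hup : Tendsto (fun n => U (N (J n + 1)) / F (N (J n + 1)) *
      (((J n : ℝ) ^ 2) / (((J n : ℝ) + 1) ^ 2 + 1))⁻¹) atTop (𝓝 c) := by
    have h1 := (hq.comp hJtop).inv₀ one_ne_zero
    have h2 : Tendsto (fun n => J n + 1) atTop atTop := (tendsto_add_atTop_nat 1).comp hJtop
    have := (h.comp h2).mul h1
    rw [inv_one, mul_one] at this
    exact this
  refine tendsto_of_tendsto_of_tendsto_of_le_of_le' hlow hup ?_ ?_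
  · filter_upwards [hJtop.eventually_ge_atTop 1, hFtop.eventually_gt_atTop 0] with n hn hn0
    have hj : (1 : ℝ) ≤ J n := by exact_mod_cast hn
    have h1 : (J n : ℝ) ^ 2 ≤ F n := by
      have : (J n : ℝ) ≤ Real.sqrt (F n) := Nat.floor_le (Real.sqrt_nonneg _)
      calc (J n : ℝ) ^ 2 ≤ Real.sqrt (F n) ^ 2 := by gcongr
        _ = F n := Real.sq_sqrt hn0.le
    have h2 : F n < ((J n : ℝ) + 1) ^ 2 := by
      have : Real.sqrt (F n) < J n + 1 := Nat.lt_floor_add_one _
      calc F n = Real.sqrt (F n) ^ 2 := (Real.sq_sqrt hn0.le).symm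
        _ < _ := by gcongr
    have h3 : N (J n) ≤ n := hN3 _ _ h1
    have h4 : U (N (J n)) ≤ U n := hU h3
    have h5 : 0 < F (N (J n)) := lt_of_lt_of_le (by positivity) (hN1 (J n))
    have h6 := hN1 (J n)
    calc U (N (J n)) / F (N (J n)) * (((J n : ℝ) ^ 2) / (((J n : ℝ) + 1) ^ 2 + 1))
        ≤ U (N (J n)) / F (N (J n)) * (F (N (J n)) / F n) := by
          refine mul_le_mul_of_nonneg_left ?_ (div_nonneg (hU0 _) h5.le)
          gcongr
          linarith
      _ = U (N (J n)) / F n := by field_simp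
      _ ≤ U n / F n := by gcongr
  · filter_upwards [hJtop.eventually_ge_atTop 1, hFtop.eventually_gt_atTop 0] with n hn hn0
    have hj : (1 : ℝ) ≤ J n := by exact_mod_cast hn
    have h1 : (J n : ℝ) ^ 2 ≤ F n := by
      have : (J n : ℝ) ≤ Real.sqrt (F n) := Nat.floor_le (Real.sqrt_nonneg _)
      calc (J n : ℝ) ^ 2 ≤ Real.sqrt (F n) ^ 2 := by gcongr
        _ = F n := Real.sq_sqrt hn0.le
    have h2 : F n < ((J n : ℝ) + 1) ^ 2 := by
      have : Real.sqrt (F n) < J n + 1 := Nat.lt_floor_add_one _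
      calc F n = Real.sqrt (F n) ^ 2 := (Real.sq_sqrt hn0.le).symm
        _ < _ := by gcongr
    have h3 : n ≤ N (J n + 1) := by
      by_contra hcon
      push Not at hcon
      have h4 := hF hcon.le
      have h5 := hN1 (J n + 1)
      push_cast at h5
      linarith
    have h4 : U n ≤ U (N (J n + 1)) := hU h3
    have h5 := hN1 (J n + 1)
    have h5' := hN2 (J n + 1)
    push_cast at h5 h5'
    have h6 : 0 < F (N (J n + 1)) := lt_of_lt_of_le (by positivity) h5
    rw [inv_div]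
    calc U n / F n ≤ U (N (J n + 1)) / F n := by gcongr
      _ = U (N (J n + 1)) / F (N (J n + 1)) * (F (N (J n + 1)) / F n) := by field_simp
      _ ≤ U (N (J n + 1)) / F (N (J n + 1)) * ((((J n : ℝ) + 1) ^ 2 + 1) / (J n : ℝ) ^ 2) := by
          refine mul_le_mul_of_nonneg_left ?_ (div_nonneg (hU0 _) h6.le)
          gcongr

variable {Ω : Type*} [MeasurableSpace Ω] {P : Measure Ω}

theorem sq_sum_orth (D : ℕ → Ω → ℝ) (hD : ∀ k, MemLp (D k) 2 P)
    (horth : ∀ k l, k < l → ∫ ω, D k ω * D l ω ∂P = 0) (n : ℕ) :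
    ∫ ω, (∑ k ∈ range n, D k ω) ^ 2 ∂P = ∑ k ∈ range n, ∫ ω, D k ω ^ 2 ∂P := by
  have hi : ∀ k l, Integrable (fun ω => D k ω * D l ω) P := fun k l => (hD k).integrable_mul (hD l)
  have e : (fun ω => (∑ k ∈ range n, D k ω) ^ 2) = fun ω => ∑ k ∈ range n, ∑ l ∈ range n, D k ω * D l ω := by
    funext ω
    rw [sq, sum_mul_sum]
  rw [e, integral_finsetSum _ fun k _ => integrable_finsetSum _ fun l _ => hi k l]
  refine sum_congr rfl fun k hk => ?_
  rw [integral_finsetSum _ fun l _ => hi k l, sum_eq_single_of_mem k hk]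
  · refine integral_congr_ae (Eventually.of_forall fun ω => ?_)
    simp only
    ring
  · intro l _ hlk
    rcases lt_or_gt_of_ne hlk with h | h
    · have := horth l k h
      rw [← this]
      refine integral_congr_ae (Eventually.of_forall fun ω => ?_)
      simp only
      ring
    · exact horth k l h

/-- **Strong law** with random compensators. -/
theorem slln2 [IsProbabilityMeasure P] (a w : ℕ → Ω → ℝ) (v : ℕ → ℝ) (C : ℝ) (hC : 0 ≤ C)
    (hv0 : ∀ k, 0 ≤ v k) (hv1 : ∀ k, v k ≤ 1)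
    (hdiv : Tendsto (fun n => ∑ k ∈ range n, v k) atTop atTop)
    (hD : ∀ k, MemLp (fun ω => a k ω - w k ω) 2 P)
    (horth : ∀ k l, k < l → ∫ ω, (a k ω - w k ω) * (a l ω - w l ω) ∂P = 0)
    (hsq : ∀ k, ∫ ω, (a k ω - w k ω) ^ 2 ∂P ≤ C * v k) :
    ∀ᵐ ω ∂P, (∀ k, 0 ≤ a k ω) → ∀ c : ℝ,
      Tendsto (fun n => (∑ k ∈ range n, w k ω) / ∑ k ∈ range n, v k) atTop (𝓝 c) →
      Tendsto (fun n => (∑ k ∈ range n, a k ω) / ∑ k ∈ range n, v k) atTop (𝓝 c) := by
  classical
  set F : ℕ → ℝ := fun n => ∑ k ∈ range n, v k with hF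
  have hFmono : Monotone F := by
    refine monotone_nat_of_le_succ fun n => ?_
    simp only [hF, sum_range_succ]
    linarith [hv0 n]
  have hFstep : ∀ n, F (n + 1) ≤ F n + 1 := by
    intro n
    simp only [hF, sum_range_succ]
    linarith [hv1 n]
  have hex : ∀ j : ℕ, ∃ n : ℕ, (j : ℝ) ^ 2 ≤ F n := fun j => (hdiv.eventually_ge_atTop _).exists
  set N : ℕ → ℕ := fun j => Nat.find (hex j) with hN
  have hN1 : ∀ j : ℕ, (j : ℝ) ^ 2 ≤ F (N j) := fun j => Nat.find_spec (hex j)
  have hN3 : ∀ j n : ℕ, (j : ℝ) ^ 2 ≤ F n → N j ≤ n := fun j n h => Nat.find_min' (hex j) h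
  have hN2 : ∀ j : ℕ, F (N j) ≤ (j : ℝ) ^ 2 + 1 := by
    intro j
    rcases Nat.eq_zero_or_pos (N j) with h0 | h0
    · rw [h0]
      simp only [hF, Finset.range_zero, Finset.sum_empty]
      positivity
    · have h1 : ¬ (j : ℝ) ^ 2 ≤ F (N j - 1) :=
        Nat.find_min (hex j) (m := N j - 1) (by change N j - 1 < N j; omega)
      have h2 := hFstep (N j - 1)
      rw [Nat.sub_add_cancel h0] at h2
      push Not at h1
      linarith
  set T : ℕ → Ω → ℝ := fun n ω => ∑ k ∈ range n, (a k ω - w k ω) with hT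
  have hTmem : ∀ n, MemLp (T n) 2 P := fun n => memLp_finsetSum _ fun k _ => hD k
  have hTsq : ∀ n, ∫ ω, (T n ω) ^ 2 ∂P ≤ C * F n := by
    intro n
    have h1 := sq_sum_orth (fun k ω => a k ω - w k ω) hD horth n
    simp only [hT]
    rw [h1, hF, mul_sum]
    exact sum_le_sum fun k _ => hsq k
  -- Chebyshev
  have hcheb : ∀ m : ℕ, 1 ≤ m → ∀ᵐ ω ∂P, ∀ᶠ j : ℕ in atTop, |T (N j) ω| < F (N j) / m := by
    intro m hm
    have hm0 : (0 : ℝ) < m := by exact_mod_cast hm
    have hb : ∀ j : ℕ, P {ω | F (N j) / m ≤ |T (N j) ω|} ≤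
        ENNReal.ofReal (if j = 0 then 1 else (C * (m : ℝ) ^ 2) * (1 / (j : ℝ) ^ 2)) := by
      intro j
      by_cases hj : j = 0
      · rw [if_pos hj, ENNReal.ofReal_one]
        exact prob_le_one
      · rw [if_neg hj]
        have hj0 : (0 : ℝ) < (j : ℝ) ^ 2 := by
          have : (0 : ℝ) < j := by exact_mod_cast Nat.pos_of_ne_zero hj
          positivity
        have ha : 0 < F (N j) := hj0.trans_le (hN1 j)
        have hε : 0 < (F (N j) / m) ^ 2 := by positivity
        have h1 := mul_meas_ge_le_integral_of_nonneg (μ := P) (f := fun ω => (T (N j) ω) ^ 2)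
          (Eventually.of_forall fun ω => sq_nonneg _) (hTmem (N j)).integrable_sq ((F (N j) / m) ^ 2)
        have h2 : {ω | F (N j) / m ≤ |T (N j) ω|} ⊆ {ω | (F (N j) / m) ^ 2 ≤ (T (N j) ω) ^ 2} := by
          intro ω hω
          have h3 : F (N j) / m ≤ |T (N j) ω| := hω
          have h4 : (0 : ℝ) ≤ F (N j) / m := by positivity
          show (F (N j) / m) ^ 2 ≤ (T (N j) ω) ^ 2
          rw [← sq_abs (T (N j) ω)]
          gcongr
        have h3 : P.real {ω | F (N j) / m ≤ |T (N j) ω|} ≤ (C * (m : ℝ) ^ 2) * (1 / (j : ℝ) ^ 2) := by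
          have h4 : P.real {ω | F (N j) / m ≤ |T (N j) ω|} ≤ P.real {ω | (F (N j) / m) ^ 2 ≤ (T (N j) ω) ^ 2} :=
            measureReal_mono h2
          have h5 : (F (N j) / m) ^ 2 * P.real {ω | (F (N j) / m) ^ 2 ≤ (T (N j) ω) ^ 2} ≤ C * F (N j) :=
            h1.trans (hTsq (N j))
          have h6 : P.real {ω | (F (N j) / m) ^ 2 ≤ (T (N j) ω) ^ 2} ≤ C * F (N j) / (F (N j) / m) ^ 2 := by
            rw [le_div_iff₀ hε]
            linarith
          calc _ ≤ C * F (N j) / (F (N j) / m) ^ 2 := h4.trans h6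
            _ = (C * (m : ℝ) ^ 2) * (1 / F (N j)) := by field_simp
            _ ≤ _ := by
              gcongr
              exact hN1 j
        rw [← ENNReal.ofReal_toReal (measure_ne_top P _)]
        exact ENNReal.ofReal_le_ofReal h3
    have hsum : ∑' j : ℕ, P {ω | F (N j) / m ≤ |T (N j) ω|} ≠ ∞ := by
      refine ne_top_of_le_ne_top ?_ (ENNReal.tsum_le_tsum hb)
      have hs : Summable (fun j : ℕ => if j = 0 then (1 : ℝ) else (C * (m : ℝ) ^ 2) * (1 / (j : ℝ) ^ 2)) := by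
        have h3 : Summable (fun j : ℕ => (C * (m : ℝ) ^ 2) * (1 / (j : ℝ) ^ 2)) :=
          (Real.summable_one_div_nat_pow.2 (by norm_num)).mul_left _
        refine (summable_congr_cofinite ?_).2 h3
        rw [Filter.EventuallyEq, Filter.eventually_cofinite]
        refine (Set.finite_singleton 0).subset fun j hj => ?_
        by_contra h
        exact hj (if_neg h)
      exact hs.tsum_ofReal_ne_top
    filter_upwards [ae_eventually_notMem hsum] with ω hω
    filter_upwards [hω] with j hj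
    exact not_le.1 hj
  have hall : ∀ᵐ ω ∂P, ∀ m : ℕ, 1 ≤ m → ∀ᶠ j : ℕ in atTop, |T (N j) ω| < F (N j) / m := by
    rw [ae_all_iff]
    intro m
    by_cases hm : 1 ≤ m
    · filter_upwards [hcheb m hm] with ω hω _
      exact hω
    · exact Eventually.of_forall fun ω h => absurd h hm
  filter_upwards [hall] with ω hω ha c hc
  have hNtop : Tendsto N atTop atTop := by
    rw [tendsto_atTop]
    intro b
    obtain ⟨j0, hj0⟩ := exists_nat_gt (F b + 1)
    filter_upwards [eventually_ge_atTop j0] with j hj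
    by_contra hlt
    push Not at hlt
    have h1 := hFmono hlt.le
    have h2 := hN1 j
    have h3 : (j0 : ℝ) ≤ j := by exact_mod_cast hj
    have h0 : 0 ≤ F b := sum_nonneg fun _ _ => hv0 _
    nlinarith
  have hTz : Tendsto (fun j => T (N j) ω / F (N j)) atTop (𝓝 0) := by
    rw [Metric.tendsto_atTop]
    intro ε hε
    obtain ⟨m, hm⟩ := exists_nat_gt (1 / ε)
    have hm0 : (0 : ℝ) < m := lt_trans (by positivity) hm
    obtain ⟨J, hJ⟩ := eventually_atTop.1 (hω m (by exact_mod_cast hm0))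
    refine ⟨max J 1, fun j hj => ?_⟩
    have h1 := hJ j (le_trans (le_max_left _ _) hj)
    have h2 : (1 : ℝ) ≤ j := by exact_mod_cast (le_trans (le_max_right _ _) hj)
    have h3 : 0 < F (N j) := lt_of_lt_of_le (by positivity) (hN1 j)
    rw [Real.dist_eq, sub_zero, abs_div, abs_of_pos h3, div_lt_iff₀ h3]
    refine h1.trans ?_
    rw [div_lt_iff₀ hm0]
    have h4 : 1 < ε * m := by
      rw [div_lt_iff₀ hε] at hm
      linarith
    nlinarith
  have hU : Tendsto (fun j => (∑ k ∈ range (N j), a k ω) / F (N j)) atTop (𝓝 c) := by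
    have h1 := (hc.comp hNtop).add hTz
    rw [add_zero] at h1
    refine h1.congr fun j => ?_
    simp only [Function.comp, hT, sum_sub_distrib]
    rw [← add_div]
    congr 1
    ring
  exact interp F (fun n => ∑ k ∈ range n, a k ω) hFmono
    (monotone_nat_of_le_succ fun n => by simp only [sum_range_succ]; linarith [ha n])
    (fun n => sum_nonneg fun k _ => ha k) hdiv N hN1 hN2 hN3 c hU

end Pool.Agent.T2H32.HK
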