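import Pool.Agent.T2H32.HK.Conv
import Pool.Agent.T2H32.HK.Slln2
import Pool.Agent.T2H32.CM.Model

set_option autoImplicit false

/-! # The Hawkins random sieve: the strong laws -/

open MeasureTheory ProbabilityTheory Filter Topology Finset
open scoped ENNReal NNReal

namespace Pool.Agent.T2H32.HK

theorem ratio_sum (r u : ℕ → ℝ) (hr : ∀ k, 0 ≤ r k) (hdiv : Tendsto (fun n => ∑ k ∈ range n, r k) atTop atTop)
    (c : ℝ) (h : (fun k => u k - c * r k) =o[atTop] r) :
    Tendsto (fun n => (∑ k ∈ range n, u k) / ∑ k ∈ range n, r k) atTop (𝓝 c) := by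
  have h1 := h.sum_range hr hdiv
  have h2 := h1.tendsto_div_nhds_zero
  have h3 := h2.add_const c
  rw [zero_add] at h3
  refine h3.congr' ?_
  filter_upwards [hdiv.eventually_gt_atTop 0] with n hn
  rw [Finset.sum_sub_distrib, ← mul_sum]
  field_simp
  ring

theorem ratio_change (a a' v v' : ℕ → ℝ) (K : ℕ) (ha : ∀ k ≥ K, a k = a' k) (hv : ∀ k ≥ K, v k = v' k)
    (hdiv : Tendsto (fun n => ∑ k ∈ range n, v k) atTop atTop) (c : ℝ)
    (h : Tendsto (fun n => (∑ k ∈ range n, a k) / ∑ k ∈ range n, v k) atTop (𝓝 c)) :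
    Tendsto (fun n => (∑ k ∈ range n, a' k) / ∑ k ∈ range n, v' k) atTop (𝓝 c) := by
  have e : ∀ (x x' : ℕ → ℝ), (∀ k ≥ K, x k = x' k) → ∀ n ≥ K, ∑ k ∈ range n, x' k =
      ∑ k ∈ range n, x k + (∑ k ∈ range K, x' k - ∑ k ∈ range K, x k) := by
    intro x x' hx n hn
    induction n, hn using Nat.le_induction with
    | base => ring
    | succ n hn ih =>
      rw [sum_range_succ, sum_range_succ, ih, hx n hn]
      ring
  set ca := ∑ k ∈ range K, a' k - ∑ k ∈ range K, a k
  set cv := ∑ k ∈ range K, v' k - ∑ k ∈ range K, v k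
  have h1 : Tendsto (fun n => ca / ∑ k ∈ range n, v k) atTop (𝓝 0) := tendsto_const_nhds.div_atTop hdiv
  have h2 : Tendsto (fun n => cv / ∑ k ∈ range n, v k) atTop (𝓝 0) := tendsto_const_nhds.div_atTop hdiv
  have h3 := (h.add h1).div (h2.const_add 1) (by norm_num)
  rw [add_zero, add_zero, div_one] at h3
  refine h3.congr' ?_
  filter_upwards [eventually_ge_atTop K, hdiv.eventually_gt_atTop 0] with n hn hn0
  have ea : ∑ k ∈ range n, a' k = ∑ k ∈ range n, a k + ca := e a a' ha n hn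
  have ev : ∑ k ∈ range n, v' k = ∑ k ∈ range n, v k + cv := e v v' hv n hn
  rw [Pi.div_apply, ea, ev]
  field_simp

theorem div_change (v v' : ℕ → ℝ) (K : ℕ) (hv : ∀ k ≥ K, v k = v' k)
    (hdiv : Tendsto (fun n => ∑ k ∈ range n, v k) atTop atTop) :
    Tendsto (fun n => ∑ k ∈ range n, v' k) atTop atTop := by
  have e : ∀ n ≥ K, ∑ k ∈ range n, v' k =
      ∑ k ∈ range n, v k + (∑ k ∈ range K, v' k - ∑ k ∈ range K, v k) := by
    intro n hn
    induction n, hn using Nat.le_induction with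
    | base => ring
    | succ n hn ih =>
      rw [sum_range_succ, sum_range_succ, ih, hv n hn]
      ring
  refine (tendsto_atTop_add_const_right _ (∑ k ∈ range K, v' k - ∑ k ∈ range K, v k) hdiv).congr' ?_
  filter_upwards [eventually_ge_atTop K] with n hn
  rw [e n hn]

variable {Ω : Type*} [MeasurableSpace Ω] {P : Measure Ω} {E : ℕ → ℕ → Set Ω} {A : ℕ → Set Ω}

omit [MeasurableSpace Ω] in
theorem S_filter (A : ℕ → Set Ω) (k l : ℕ) (hkl : k ≤ l) (ω : Ω) :
    (S A l ω).filter (fun j => j < k) = S A k ω := by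
  ext j
  rw [mem_filter, mem_S, mem_S]
  constructor
  · rintro ⟨⟨h1, h2⟩, h3⟩
    exact ⟨h3, h2⟩
  · rintro ⟨h1, h2⟩
    exact ⟨⟨by omega, h2⟩, h1⟩

omit [MeasurableSpace Ω] in
theorem ind_eq (A : ℕ → Set Ω) (k l : ℕ) (hkl : k < l) (ω : Ω) :
    ind (A k) ω = if k ∈ S A l ω then 1 else 0 := by
  by_cases h : ω ∈ A k
  · rw [ind_of_mem _ _ h, if_pos ((mem_S A l ω k).2 ⟨hkl, h⟩)]
  · rw [ind_of_notMem _ _ h, if_neg (fun h' => h ((mem_S A l ω k).1 h').2)]

/-- the truncated differences of the first strong law -/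
noncomputable def φ1 (f : ℕ → ℝ) (m k : ℕ) (T : Finset ℕ) : ℝ :=
  if 3 ≤ k ∧ Real.log k / ((m : ℝ) + 1) ≤ (y T)⁻¹ then f k else 0

theorem φ1_nonneg (f : ℕ → ℝ) (hf0 : ∀ k, 0 ≤ f k) (m k : ℕ) (T : Finset ℕ) : 0 ≤ φ1 f m k T := by
  unfold φ1
  split_ifs
  · exact hf0 k
  · exact le_rfl

theorem φ1_le (f : ℕ → ℝ) (hf1 : ∀ k, f k ≤ 1) (m k : ℕ) (T : Finset ℕ) : φ1 f m k T ≤ 1 := by
  unfold φ1
  split_ifs
  · exact hf1 k
  · exact zero_le_one

theorem D1_memLp (h : Model P E A) (k : ℕ) (φ : Finset ℕ → ℝ) :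
    MemLp (fun ω => φ (S A k ω) * ind (A k) ω - φ (S A k ω) * y (S A k ω)) 2 P := by
  have := prob h
  obtain ⟨C, hC⟩ := phi_bdd A k φ
  refine MemLp.of_bound (((phi_meas h k φ).mul (ind_meas _ (A_meas h k))).sub
    ((phi_meas h k φ).mul (phi_meas h k y))).aestronglyMeasurable C (Eventually.of_forall fun ω => ?_)
  rw [← mul_sub, Real.norm_eq_abs, abs_mul]
  have h3 : |ind (A k) ω - y (S A k ω)| ≤ 1 := by
    rw [abs_le]
    have a1 := ind_nonneg (A k) ω
    have a2 := ind_le (A k) ω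
    have a3 := y_pos h k ω
    have a4 := y_le_one h k ω
    constructor <;> linarith
  calc _ ≤ |φ (S A k ω)| * 1 := by gcongr
    _ ≤ C := by rw [mul_one]; exact hC ω

/-- **First strong law**: sums over the random primes. -/
theorem slln_A (h : Model P E A) (f : ℕ → ℝ) (hf0 : ∀ k, 0 ≤ f k) (hf1 : ∀ k, f k ≤ 1)
    (hdiv : Tendsto (fun n => ∑ k ∈ range n, (if 3 ≤ k then f k / Real.log k else 0)) atTop atTop) :
    ∀ᵐ ω ∂P, Tendsto (fun n => (∑ k ∈ range n, (if 3 ≤ k then f k * ind (A k) ω else 0)) /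
      ∑ k ∈ range n, (if 3 ≤ k then f k / Real.log k else 0)) atTop (𝓝 1) := by
  have := prob h
  set v : ℕ → ℝ := fun k => if 3 ≤ k then f k / Real.log k else 0 with hv
  have hv0 : ∀ k, 0 ≤ v k := by
    intro k
    simp only [hv]
    split_ifs with h3
    · exact div_nonneg (hf0 k) (Real.log_natCast_nonneg k)
    · exact le_rfl
  have hlog : ∀ k : ℕ, 3 ≤ k → 1 ≤ Real.log k := by
    intro k hk
    rw [Real.le_log_iff_exp_le (by positivity)]
    have h2 := Real.exp_one_lt_d9
    have h3 : (3 : ℝ) ≤ k := by exact_mod_cast hk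
    linarith
  have hv1 : ∀ k, v k ≤ 1 := by
    intro k
    simp only [hv]
    split_ifs with h3
    · rw [div_le_one (by linarith [hlog k h3])]
      linarith [hlog k h3, hf1 k]
    · exact zero_le_one
  have hm : ∀ m : ℕ, ∀ᵐ ω ∂P, (∀ k, 0 ≤ φ1 f m k (S A k ω) * ind (A k) ω) → ∀ c : ℝ,
      Tendsto (fun n => (∑ k ∈ range n, φ1 f m k (S A k ω) * y (S A k ω)) / ∑ k ∈ range n, v k) atTop (𝓝 c) →
      Tendsto (fun n => (∑ k ∈ range n, φ1 f m k (S A k ω) * ind (A k) ω) / ∑ k ∈ range n, v k) atTop (𝓝 c) := by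
    intro m
    refine slln2 (fun k ω => φ1 f m k (S A k ω) * ind (A k) ω) (fun k ω => φ1 f m k (S A k ω) * y (S A k ω))
      v ((m : ℝ) + 1) (by positivity) hv0 hv1 hdiv (fun k => D1_memLp h k (φ1 f m k)) ?_ ?_
    · intro k l hkl
      by_cases hl : 3 ≤ l
      swap
      · have : ∀ T, φ1 f m l T = 0 := fun T => by
          unfold φ1
          rw [if_neg (fun h' => hl h'.1)]
        simp [this]
      obtain ⟨n, rfl⟩ : ∃ n, l = n + 2 := ⟨l - 2, by omega⟩
      have h1 := int_phi_D h n (fun T => φ1 f m k (T.filter (fun j => j < k)) *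
        ((if k ∈ T then 1 else 0) - y (T.filter (fun j => j < k))) * φ1 f m (n + 2) T)
      rw [← h1]
      refine integral_congr_ae (Eventually.of_forall fun ω => ?_)
      simp only
      rw [S_filter A k (n + 2) hkl.le ω, ← ind_eq A k (n + 2) hkl ω]
      ring
    · intro k
      by_cases hk : 3 ≤ k
      swap
      · have : ∀ T, φ1 f m k T = 0 := fun T => by
          unfold φ1
          rw [if_neg (fun h' => hk h'.1)]
        simp only [this, zero_mul, sub_zero]
        have := hv0 k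
        simp only [ne_eq, OfNat.ofNat_ne_zero, not_false_eq_true, zero_pow, integral_zero]
        positivity
      obtain ⟨n, rfl⟩ : ∃ n, k = n + 2 := ⟨k - 2, by omega⟩
      have h1 := int_phi_D2 h n (fun T => φ1 f m (n + 2) T ^ 2)
      have e : (fun ω => (φ1 f m (n + 2) (S A (n + 2) ω) * ind (A (n + 2)) ω -
          φ1 f m (n + 2) (S A (n + 2) ω) * y (S A (n + 2) ω)) ^ 2) = fun ω =>
          φ1 f m (n + 2) (S A (n + 2) ω) ^ 2 * (ind (A (n + 2)) ω - y (S A (n + 2) ω)) ^ 2 := by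
        funext ω
        ring
      rw [e, h1]
      have h2 : ∀ ω, φ1 f m (n + 2) (S A (n + 2) ω) ^ 2 * (y (S A (n + 2) ω) * (1 - y (S A (n + 2) ω))) ≤
          ((m : ℝ) + 1) * v (n + 2) := by
        intro ω
        have a1 := φ1_nonneg f hf0 m (n + 2) (S A (n + 2) ω)
        have a2 := φ1_le f hf1 m (n + 2) (S A (n + 2) ω)
        have a3 := y_pos h (n + 2) ω
        have a4 := y_le_one h (n + 2) ω
        have a5 : φ1 f m (n + 2) (S A (n + 2) ω) ^ 2 ≤ φ1 f m (n + 2) (S A (n + 2) ω) := by nlinarith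
        have a6 : y (S A (n + 2) ω) * (1 - y (S A (n + 2) ω)) ≤ y (S A (n + 2) ω) := by nlinarith
        have a7 : 0 ≤ y (S A (n + 2) ω) * (1 - y (S A (n + 2) ω)) := mul_nonneg a3.le (by linarith)
        have a8 : φ1 f m (n + 2) (S A (n + 2) ω) * y (S A (n + 2) ω) ≤ ((m : ℝ) + 1) * v (n + 2) := by
          unfold φ1
          split_ifs with h3
          · simp only [hv]
            rw [if_pos hk]
            have hL := hlog (n + 2) hk
            have hL0 : 0 < Real.log ((n + 2 : ℕ) : ℝ) := by linarith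
            have h4 : y (S A (n + 2) ω) ≤ ((m : ℝ) + 1) / Real.log ((n + 2 : ℕ) : ℝ) := by
              have h5 := (le_inv_comm₀ (by positivity) a3).1 h3.2
              rwa [inv_div] at h5
            have h5 := hf0 (n + 2)
            calc f (n + 2) * y (S A (n + 2) ω) ≤ f (n + 2) * (((m : ℝ) + 1) / Real.log ((n + 2 : ℕ) : ℝ)) := by gcongr
              _ = _ := by ring
          · rw [zero_mul]
            have := hv0 (n + 2)
            positivity
        calc _ ≤ φ1 f m (n + 2) (S A (n + 2) ω) * y (S A (n + 2) ω) := by gcongr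
          _ ≤ _ := a8
      calc _ ≤ ∫ _, ((m : ℝ) + 1) * v (n + 2) ∂P :=
            integral_mono (phi_int h (n + 2) (fun T => φ1 f m (n + 2) T ^ 2 * (y T * (1 - y T))))
              (integrable_const _) h2
        _ = _ := by rw [integral_const, probReal_univ, one_smul]
  have hall := ae_all_iff.2 hm
  filter_upwards [hall, Z_conv h] with ω hω ⟨L, hL⟩
  -- a lower bound for `Z`
  obtain ⟨B, hB⟩ := hL.bddBelow_range
  obtain ⟨m, hm⟩ := exists_nat_ge |B|
  have hZ : ∀ k : ℕ, Real.log k / ((m : ℝ) + 1) ≤ (y (S A k ω))⁻¹ := by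
    intro k
    have h1 : B ≤ Z A k ω - Real.log k := hB ⟨k, rfl⟩
    have h2 := one_le_Z h k ω
    have h3 : (y (S A k ω))⁻¹ = Z A k ω := rfl
    rw [h3, div_le_iff₀ (by positivity)]
    have h4 : -(m : ℝ) ≤ B := by linarith [neg_abs_le B]
    nlinarith [Nat.cast_nonneg (α := ℝ) m]
  have hφ : ∀ k, φ1 f m k (S A k ω) = if 3 ≤ k then f k else 0 := by
    intro k
    unfold φ1
    by_cases hk : 3 ≤ k
    · rw [if_pos ⟨hk, hZ k⟩, if_pos hk]
    · rw [if_neg (fun h' => hk h'.1), if_neg hk]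
  have h1 := hω m (fun k => mul_nonneg (φ1_nonneg f hf0 m k _) (ind_nonneg _ _)) 1 ?_
  · refine h1.congr fun n => ?_
    congr 1
    refine sum_congr rfl fun k _ => ?_
    rw [hφ k, ite_mul, zero_mul]
  · refine ratio_sum v _ hv0 hdiv 1 ?_
    have hyl : Tendsto (fun k : ℕ => y (S A k ω) * Real.log k) atTop (𝓝 1) := by
      have h2 : Tendsto (fun k : ℕ => (Z A k ω - Real.log k) / Real.log k) atTop (𝓝 0) :=
        hL.div_atTop Pool.Agent.T2H32.CM.tendsto_L
      have h3 : Tendsto (fun k : ℕ => Z A k ω / Real.log k) atTop (𝓝 1) := by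
        have h4 := h2.add_const 1
        rw [zero_add] at h4
        refine h4.congr' ?_
        filter_upwards [eventually_ge_atTop 3] with k hk
        have := hlog k hk
        field_simp
        ring
      have h4 := h3.inv₀ one_ne_zero
      rw [inv_one] at h4
      refine h4.congr fun k => ?_
      unfold Z
      rw [inv_div, div_inv_eq_mul, mul_comm]
    have h2 : Tendsto (fun k : ℕ => y (S A k ω) * Real.log k - 1) atTop (𝓝 0) := by
      have := hyl.sub_const 1
      rwa [sub_self] at this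
    have h3 : (fun k => v k * (y (S A k ω) * Real.log k - 1)) =o[atTop] (fun k => v k * 1) :=
      (Asymptotics.isBigO_refl _ _).mul_isLittleO ((Asymptotics.isLittleO_one_iff ℝ).2 h2)
    simp only [mul_one] at h3
    refine h3.congr' ?_ EventuallyEq.rfl
    filter_upwards [eventually_ge_atTop 3] with k hk
    have hL1 := hlog k hk
    rw [hφ k, if_pos hk]
    simp only [hv]
    rw [if_pos hk]
    field_simp

end Pool.Agent.T2H32.HK
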