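import Pool.Agent.T2H32.HK.Main

set_option autoImplicit false

/-! # The Hawkins random sieve: final forms -/

open MeasureTheory ProbabilityTheory Filter Topology Finset
open scoped ENNReal NNReal
open Pool.Agent.T2H32.CM (Large p g count_eq finite_iff l3 tendsto_l3 tendsto_llog tendsto_L llog_pos log_gt_one)

namespace Pool.Agent.T2H32.HK

variable {Ω : Type*} [MeasurableSpace Ω] {P : Measure Ω} {E : ℕ → ℕ → Set Ω} {A : ℕ → Set Ω}

theorem G_vv (ψ : ℕ → ℝ) (n : ℕ) :
    Pool.Agent.T2H32.CM.G 1 ψ n = Real.exp (-(1 / 2)) * ∑ k ∈ range n, vv ψ k := by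
  unfold Pool.Agent.T2H32.CM.G
  rw [mul_sum]
  refine sum_congr rfl fun k _ => ?_
  unfold Pool.Agent.T2H32.CM.b Pool.Agent.T2H32.CM.χ Pool.Agent.T2H32.CM.μ vv
  by_cases h3 : 3 ≤ k
  · rw [if_pos h3, if_pos h3, if_pos (Nat.coprime_one_right k)]
    simp
  · rw [if_neg h3, if_neg h3, mul_zero]

theorem G_vv_top (ψ : ℕ → ℝ) : Tendsto (Pool.Agent.T2H32.CM.G 1 ψ) atTop atTop ↔
    Tendsto (fun n => ∑ k ∈ range n, vv ψ k) atTop atTop := by
  have e : Pool.Agent.T2H32.CM.G 1 ψ = fun n => Real.exp (-(1 / 2)) * ∑ k ∈ range n, vv ψ k := funext (G_vv ψ)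
  rw [e]
  exact tendsto_const_mul_atTop_of_pos (Real.exp_pos _)

theorem zero_top : Tendsto (fun n => ∑ k ∈ range n, vv (fun _ => 0) k) atTop atTop :=
  (G_vv_top _).1 (Pool.Agent.T2H32.CM.G_zero_atTop 1 one_pos)

theorem zero_ratio : Tendsto (fun n : ℕ => (∑ k ∈ range n, vv (fun _ => 0) k) / Real.log (Real.log n)) atTop
    (𝓝 1) := by
  refine Pool.Agent.T2H32.CM.h1_ratio.congr fun n => ?_
  congr 1
  refine sum_congr rfl fun k _ => ?_
  unfold Pool.Agent.T2H32.CM.h1f vv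
  rw [neg_zero, Real.exp_zero]

/-- there are infinitely many random primes -/
theorem inf_A (h : Model P E A) : ∀ᵐ ω ∂P, {k | ω ∈ A k}.Infinite := by
  filter_upwards [main_div h _ Pool.Agent.T2H32.CM.small_zero zero_top, Z_conv h] with ω hω ⟨L, hL⟩
  have h0 := hω L hL
  intro hfin
  have h1 : Tendsto (fun n => Pool.Agent.T2H32.CM.S (Pool.Agent.T2H32.CM.E A (fun _ => 0)) n ω) atTop atTop := by
    have h2 := h0.pos_mul_atTop (Real.exp_pos _) zero_top
    refine h2.congr' ?_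
    filter_upwards [zero_top.eventually_gt_atTop 0] with n hn
    field_simp
  have h3 : ∀ n, Pool.Agent.T2H32.CM.S (Pool.Agent.T2H32.CM.E A (fun _ => 0)) n ω ≤ hfin.toFinset.card := by
    intro n
    unfold Pool.Agent.T2H32.CM.S
    classical
    calc ∑ k ∈ Finset.range n, (Pool.Agent.T2H32.CM.E A (fun _ => 0) k).indicator (fun _ => (1 : ℝ)) ω
        ≤ ∑ k ∈ Finset.range n, (if ω ∈ A k then (1 : ℝ) else 0) := by
          refine Finset.sum_le_sum fun k _ => ?_
          by_cases h : ω ∈ Pool.Agent.T2H32.CM.E A (fun _ => 0) k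
          · rw [Set.indicator_of_mem h, if_pos h.1]
          · rw [Set.indicator_of_notMem h]
            split_ifs <;> norm_num
      _ = (((Finset.range n).filter (fun k => ω ∈ A k)).card : ℝ) := by
          rw [Finset.sum_boole]
      _ ≤ _ := by
          norm_cast
          refine Finset.card_le_card fun k hk => ?_
          rw [Finset.mem_filter] at hk
          rw [Set.Finite.mem_toFinset]
          exact hk.2
  obtain ⟨n, hn⟩ := (h1.eventually_gt_atTop (hfin.toFinset.card : ℝ)).exists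
  exact absurd (h3 n) (not_le.2 hn)

theorem part_div (h : Model P E A) (ψ : ℕ → ℝ) (hψ : Tendsto (fun k : ℕ => ψ k / Real.log k) atTop (𝓝 0))
    (hF : Tendsto (fun n => ∑ k ∈ range n, vv ψ k) atTop atTop) :
    ∀ᵐ ω ∂P, ∀ L : ℝ, Tendsto (fun k => Z A k ω - Real.log k) atTop (𝓝 L) →
      Tendsto (fun x : ℕ => ({n | Large A ψ ω n ∧ p A ω n ≤ x}.ncard : ℝ) / ∑ k ∈ range (x + 1), vv ψ k)
      atTop (𝓝 (Real.exp (L - 1 / 2))) := by
  filter_upwards [inf_A h, main_div h ψ hψ hF] with ω h1 h2 L hL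
  refine ((h2 L hL).comp (tendsto_add_atTop_nat 1)).congr fun x => ?_
  rw [Function.comp_apply, ← count_eq A ψ ω h1 x]

theorem part_conv (h : Model P E A) (ψ : ℕ → ℝ) (hψ : Tendsto (fun k : ℕ => ψ k / Real.log k) atTop (𝓝 0))
    (hF : ¬ Tendsto (fun n => ∑ k ∈ range n, vv ψ k) atTop atTop) :
    ∀ᵐ ω ∂P, {n | Large A ψ ω n}.Finite := by
  filter_upwards [inf_A h, main_conv h ψ hψ hF] with ω h1 h2
  exact (finite_iff A ψ ω h1).2 h2

theorem part_zero (h : Model P E A) :
    ∀ᵐ ω ∂P, ∀ L : ℝ, Tendsto (fun k => Z A k ω - Real.log k) atTop (𝓝 L) →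
      Tendsto (fun x : ℕ => ({n | Large A (fun _ => 0) ω n ∧ p A ω n ≤ x}.ncard : ℝ) /
      Real.log (Real.log x)) atTop (𝓝 (Real.exp (L - 1 / 2))) := by
  filter_upwards [part_div h _ Pool.Agent.T2H32.CM.small_zero zero_top] with ω h0 L hL
  have h := h0 L hL
  have h1 := zero_ratio.comp (tendsto_add_atTop_nat 1)
  have h2 : Tendsto (fun x : ℕ => Real.log (Real.log (x + 1 : ℕ)) / Real.log (Real.log x))
      atTop (𝓝 1) := by
    have h3 : Tendsto (fun x : ℕ => 1 + 1 / Real.log (Real.log x)) atTop (𝓝 1) := by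
      have := (tendsto_const_nhds (x := (1 : ℝ))).div_atTop tendsto_llog
      simpa using this.const_add 1
    refine tendsto_of_tendsto_of_tendsto_of_le_of_le' tendsto_const_nhds h3 ?_ ?_
    · filter_upwards [eventually_ge_atTop 3] with x hx
      have h4 := llog_pos x hx
      have h5 := log_gt_one x hx
      rw [le_div_iff₀ h4, one_mul]
      refine Real.log_le_log (by linarith) (Real.log_le_log ?_ ?_)
      · exact_mod_cast (by omega : 0 < x)
      · push_cast
        linarith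
    · filter_upwards [eventually_ge_atTop 3] with x hx
      have h4 := llog_pos x hx
      have h5 := log_gt_one x hx
      rw [div_le_iff₀ h4]
      have h6 := Pool.Agent.T2H32.CM.ll_upper x hx
      have h7 : 1 / (x * Real.log x) ≤ 1 := by
        have h8 : (3 : ℝ) ≤ x := by exact_mod_cast hx
        rw [div_le_one (by positivity)]
        nlinarith
      have h9 : (1 + 1 / Real.log (Real.log x)) * Real.log (Real.log x) = Real.log (Real.log x) + 1 := by
        field_simp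
      rw [h9]
      linarith
  have h5 := (h.mul h1).mul h2
  rw [mul_one, mul_one] at h5
  refine h5.congr' ?_
  have h6 : ∀ᶠ x : ℕ in atTop, 0 < ∑ k ∈ range (x + 1), vv (fun _ => 0) k :=
    (tendsto_add_atTop_nat 1).eventually (zero_top.eventually_gt_atTop 0)
  filter_upwards [eventually_ge_atTop 3, h6] with x hx hx'
  have h4 := llog_pos x hx
  have h5 := llog_pos (x + 1) (by omega)
  simp only [Function.comp_apply]
  field_simp

theorem part_lil (h : Model P E A) :
    ∀ᵐ ω ∂P, (∃ᶠ n in atTop, Large A l3 ω n) ∧ ∀ ε : ℝ, 0 < ε → ∀ᶠ n in atTop,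
      g A ω n < Real.log (p A ω n) ^ 2 + (1 + ε) * l3 (p A ω n) * Real.log (p A ω n) := by
  have hψ1 : Tendsto (fun k : ℕ => l3 k / Real.log k) atTop (𝓝 0) := by
    simpa using Pool.Agent.T2H32.CM.l3_small 1
  have h1 : ∀ᵐ ω ∂P, ∀ j : ℕ, {n | Large A (fun k => (1 + 1 / ((j : ℝ) + 1)) * l3 k) ω n}.Finite := by
    rw [ae_all_iff]
    intro j
    exact part_conv h _ (Pool.Agent.T2H32.CM.l3_small _)
      (fun h' => Pool.Agent.T2H32.CM.G_c_bdd 1 one_pos (1 / ((j : ℝ) + 1)) (by positivity) ((G_vv_top _).2 h'))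
  have hF3 : Tendsto (fun n => ∑ k ∈ range n, vv l3 k) atTop atTop :=
    (G_vv_top _).1 (Pool.Agent.T2H32.CM.G_l3_atTop 1 one_pos)
  filter_upwards [inf_A h, part_div h l3 hψ1 hF3, h1, Z_conv h]
    with ω hinf h2' h3 ⟨L, hL⟩
  have h2 := h2' L hL
  constructor
  · rw [Nat.frequently_atTop_iff_infinite]
    intro hfin
    have h4 : Tendsto (fun x : ℕ => ({n | Large A l3 ω n ∧ p A ω n ≤ x}.ncard : ℝ)) atTop atTop := by
      have hG1 : Tendsto (fun x : ℕ => ∑ k ∈ range (x + 1), vv l3 k) atTop atTop :=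
        hF3.comp (tendsto_add_atTop_nat 1)
      refine (h2.pos_mul_atTop (Real.exp_pos _) hG1).congr' ?_
      filter_upwards [hG1.eventually_gt_atTop 0] with x hx
      field_simp
    obtain ⟨x, hx⟩ := (h4.eventually_gt_atTop ({n | Large A l3 ω n}.ncard : ℝ)).exists
    have h5 : {n | Large A l3 ω n ∧ p A ω n ≤ x}.ncard ≤ {n | Large A l3 ω n}.ncard :=
      Set.ncard_le_ncard (fun n hn => hn.1) hfin
    have h6 : ({n | Large A l3 ω n ∧ p A ω n ≤ x}.ncard : ℝ) ≤ ({n | Large A l3 ω n}.ncard : ℝ) := by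
      exact_mod_cast h5
    linarith
  · intro ε hε
    obtain ⟨j, hj⟩ := exists_nat_one_div_lt hε
    have h4 : ∀ᶠ n in atTop, n ∉ {n | Large A (fun k => (1 + 1 / ((j : ℝ) + 1)) * l3 k) ω n} := by
      have := (h3 j).eventually_cofinite_notMem
      rwa [Nat.cofinite_eq_atTop] at this
    have hp : Tendsto (p A ω) atTop atTop := (Pool.Agent.T2H32.CM.p_strictMono A ω hinf).tendsto_atTop
    filter_upwards [h4, hp.eventually (tendsto_l3.eventually_ge_atTop 0),
      hp.eventually (tendsto_L.eventually_ge_atTop 0)] with n hn hn1 hn2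
    simp only [Set.mem_ofPred_eq, Large, not_le] at hn
    refine hn.trans_le ?_
    gcongr

/-! ### the constant is not deterministic -/

theorem M_step (h : Model P E A) (n : ℕ) (φ : Finset ℕ → ℝ) :
    ∫ ω, (M A (n + 1) ω - φ (S A (n + 2) ω)) ^ 2 ∂P =
      ∫ ω, (M A n ω - φ (S A (n + 2) ω)) ^ 2 ∂P + ∫ ω, (M A (n + 1) ω - M A n ω) ^ 2 ∂P := by
  have := prob h
  set H : ℝ := ∑ i ∈ range n, 1 / ((i : ℝ) + 1) with hH
  have h1 := int_phi_D h n (fun T => 2 * ((y T)⁻¹ - H - φ T) * ((y T)⁻¹ / (n + 1)))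
  have i0 : Integrable (fun ω => (M A n ω - φ (S A (n + 2) ω)) ^ 2) P :=
    phi_int h (n + 2) (fun T => ((y T)⁻¹ - H - φ T) ^ 2)
  have e2 : (fun ω => 2 * (M A n ω - φ (S A (n + 2) ω)) * (M A (n + 1) ω - M A n ω)) = fun ω =>
      2 * ((y (S A (n + 2) ω))⁻¹ - H - φ (S A (n + 2) ω)) * ((y (S A (n + 2) ω))⁻¹ / (n + 1)) *
        (ind (A (n + 2)) ω - y (S A (n + 2) ω)) := by
    funext ω
    rw [M_succ h n ω]
    unfold M Z
    ring
  -- everything is a function of the random primes up to `n + 2`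
  have key : ∀ (G : Finset ℕ → ℝ), Integrable (fun ω => G (S A (n + 3) ω)) P := fun G => phi_int h (n + 3) G
  have hf : ∀ ω, (S A (n + 3) ω).filter (fun j => j < n + 2) = S A (n + 2) ω := fun ω =>
    S_filter A (n + 2) (n + 3) (by omega) ω
  have i1 : Integrable (fun ω => 2 * (M A n ω - φ (S A (n + 2) ω)) * (M A (n + 1) ω - M A n ω)) P := by
    have := key (fun T => 2 * (((y (T.filter (fun j => j < n + 2)))⁻¹ - H) - φ (T.filter (fun j => j < n + 2))) *
      (((y T)⁻¹ - ∑ i ∈ range (n + 1), 1 / ((i : ℝ) + 1)) - ((y (T.filter (fun j => j < n + 2)))⁻¹ - H)))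
    simp only [hf] at this
    exact this
  have i2 : Integrable (fun ω => (M A (n + 1) ω - M A n ω) ^ 2) P := by
    have := key (fun T => (((y T)⁻¹ - ∑ i ∈ range (n + 1), 1 / ((i : ℝ) + 1)) -
      ((y (T.filter (fun j => j < n + 2)))⁻¹ - H)) ^ 2)
    simp only [hf] at this
    exact this
  have e : (fun ω => (M A (n + 1) ω - φ (S A (n + 2) ω)) ^ 2) = fun ω => (M A n ω - φ (S A (n + 2) ω)) ^ 2 +
      (2 * (M A n ω - φ (S A (n + 2) ω)) * (M A (n + 1) ω - M A n ω) + (M A (n + 1) ω - M A n ω) ^ 2) := by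
    funext ω
    ring
  have i4 : Integrable (fun ω => 2 * (M A n ω - φ (S A (n + 2) ω)) * (M A (n + 1) ω - M A n ω) +
      (M A (n + 1) ω - M A n ω) ^ 2) P := i1.add i2
  rw [e, integral_add i0 i4, integral_add i1 i2, e2, h1, zero_add]

/-- tails -/
theorem M_tail (h : Model P E A) (n k : ℕ) : ∫ ω, (M A (n + k) ω - M A n ω) ^ 2 ∂P ≤
    ∑ i ∈ range k, 2 / (((n + i : ℕ) : ℝ) + 1) ^ (3 / 2 : ℝ) := by
  have := prob h
  induction k with
  | zero => simp
  | succ k ih =>
    have h1 := M_step h (n + k) (fun T => (y (T.filter (fun j => j < n + 2)))⁻¹ - ∑ i ∈ range n, 1 / ((i : ℝ) + 1))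
    have hf : ∀ ω, (S A (n + k + 2) ω).filter (fun j => j < n + 2) = S A (n + 2) ω := fun ω =>
      S_filter A (n + 2) (n + k + 2) (by omega) ω
    simp only [hf] at h1
    have e : ∀ ω, (y (S A (n + 2) ω))⁻¹ - ∑ i ∈ range n, 1 / ((i : ℝ) + 1) = M A n ω := fun ω => rfl
    simp only [e] at h1
    have h2 := D_sq h (n + k)
    rw [sum_range_succ]
    have e3 : n + (k + 1) = n + k + 1 := by ring
    rw [e3, h1]
    linarith

theorem M_lower (h : Model P E A) (c : ℝ) (n : ℕ) : 1 / 4 ≤ ∫ ω, (M A (n + 2) ω - c) ^ 2 ∂P := by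
  have := prob h
  have hA2 : A 2 = Set.univ := by
    ext ω
    rw [h.sieve]
    simp only [le_refl, true_and, Set.mem_univ, iff_true]
    intro j hj hA
    have := ((h.sieve ω j).1 hA).1
    omega
  have hD : ∀ ω, (M A 2 ω - M A 1 ω) ^ 2 = 1 / 4 := by
    intro ω
    have h1 := M_succ h 1 ω
    have h2 : S A 3 ω = {2} := by
      ext j
      rw [mem_S, mem_singleton]
      constructor
      · rintro ⟨h3, h4⟩
        have := ((h.sieve ω j).1 h4).1
        omega
      · rintro rfl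
        refine ⟨by norm_num, ?_⟩
        rw [hA2]
        trivial
    have h3 : y (S A (1 + 2) ω) = 1 / 2 := by
      have : (1 + 2 : ℕ) = 3 := rfl
      rw [this, h2]
      unfold y
      rw [prod_singleton]
      norm_num
    have h4 : Z A (1 + 2) ω = 2 := by
      unfold Z
      rw [h3]
      norm_num
    rw [h3, h4] at h1
    have h5 : M A 2 ω - M A 1 ω = ind (A (1 + 2)) ω - 1 / 2 := by
      have : M A 2 ω = M A (1 + 1) ω := rfl
      rw [this, h1]
      push_cast
      ring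
    rw [h5]
    by_cases hA : ω ∈ A (1 + 2)
    · rw [ind_of_mem _ _ hA]; norm_num
    · rw [ind_of_notMem _ _ hA]; norm_num
  induction n with
  | zero =>
    have h1 := M_step h 1 (fun _ => c)
    have h2 : ∫ ω, (M A (1 + 1) ω - M A 1 ω) ^ 2 ∂P = 1 / 4 := by
      have : (fun ω => (M A (1 + 1) ω - M A 1 ω) ^ 2) = fun _ => (1 / 4 : ℝ) := funext hD
      rw [this, integral_const, probReal_univ, one_smul]
    have h3 : 0 ≤ ∫ ω, (M A 1 ω - c) ^ 2 ∂P := integral_nonneg fun ω => sq_nonneg _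
    have h4 : ∫ ω, (M A (0 + 2) ω - c) ^ 2 ∂P = ∫ ω, (M A (1 + 1) ω - c) ^ 2 ∂P := rfl
    rw [h4, h1, h2]
    linarith
  | succ n ih =>
    have h1 := M_step h (n + 2) (fun _ => c)
    have h3 : 0 ≤ ∫ ω, (M A (n + 2 + 1) ω - M A (n + 2) ω) ^ 2 ∂P := integral_nonneg fun ω => sq_nonneg _
    have h4 : ∫ ω, (M A (n + 1 + 2) ω - c) ^ 2 ∂P = ∫ ω, (M A (n + 2 + 1) ω - c) ^ 2 ∂P := rfl
    rw [h4, h1]
    linarith

theorem nonconst (h : Model P E A) (L : ℝ) :
    ¬ ∀ᵐ ω ∂P, Tendsto (fun k => Z A k ω - Real.log k) atTop (𝓝 L) := by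
  have := prob h
  intro hcon
  -- the martingale converges to a constant
  obtain ⟨c, hc⟩ : ∃ c : ℝ, ∀ᵐ ω ∂P, Tendsto (fun n => M A n ω) atTop (𝓝 c) := by
    refine ⟨L - Real.eulerMascheroniConstant, ?_⟩
    filter_upwards [hcon] with ω hω
    have h1 := Real.tendsto_harmonic_sub_log
    have h2 : Tendsto (fun n : ℕ => Real.log (n + 2 : ℕ) - Real.log n) atTop (𝓝 0) := by
      have h3 : Tendsto (fun n : ℕ => 1 + 2 / (n : ℝ)) atTop (𝓝 (1 + 0)) :=
        tendsto_const_nhds.add (tendsto_const_div_atTop_nhds_zero_nat 2)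
      rw [add_zero] at h3
      have h4 := h3.log one_ne_zero
      rw [Real.log_one] at h4
      refine h4.congr' ?_
      filter_upwards [eventually_ge_atTop 1] with n hn
      have : (0 : ℝ) < n := by exact_mod_cast hn
      rw [← Real.log_div (by positivity) (by positivity)]
      congr 1
      push_cast
      field_simp
    have h3 := ((hω.comp (tendsto_add_atTop_nat 2)).sub h1).add h2
    rw [add_zero] at h3
    refine h3.congr fun n => ?_
    have h4 : (harmonic n : ℝ) = ∑ i ∈ range n, 1 / ((i : ℝ) + 1) := by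
      unfold harmonic
      push_cast
      refine sum_congr rfl fun i _ => ?_
      rw [one_div]
    rw [h4]
    unfold M
    simp only [Function.comp_apply]
    ring
  -- Fatou
  have hfat : ∀ n : ℕ, ∫ ω, (M A n ω - c) ^ 2 ∂P ≤ ∑' i : ℕ, 2 / (((i + n : ℕ) : ℝ) + 1) ^ (3 / 2 : ℝ) := by
    intro n
    set t : ℝ := ∑' i : ℕ, 2 / (((i + n : ℕ) : ℝ) + 1) ^ (3 / 2 : ℝ) with ht
    have ht0 : 0 ≤ t := tsum_nonneg fun i => by positivity
    have hs : Summable (fun i : ℕ => 2 / (((i + n : ℕ) : ℝ) + 1) ^ (3 / 2 : ℝ)) :=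
      (summable_nat_add_iff n).2 RR_summable
    have hMm : ∀ k, Measurable (fun ω => M A k ω) := fun k =>
      phi_meas h (k + 2) (fun T => (y T)⁻¹ - ∑ i ∈ range k, 1 / ((i : ℝ) + 1))
    have h1 : ∫⁻ ω, liminf (fun k => ENNReal.ofReal ((M A (n + k) ω - M A n ω) ^ 2)) atTop ∂P ≤
        liminf (fun k => ∫⁻ ω, ENNReal.ofReal ((M A (n + k) ω - M A n ω) ^ 2) ∂P) atTop :=
      lintegral_liminf_le fun k => (((hMm _).sub (hMm _)).pow_const 2).ennreal_ofReal
    have i2 : ∀ k, Integrable (fun ω => (M A (n + k) ω - M A n ω) ^ 2) P := by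
      intro k
      have hf : ∀ ω, (S A (n + k + 2) ω).filter (fun j => j < n + 2) = S A (n + 2) ω := fun ω =>
        S_filter A (n + 2) (n + k + 2) (by omega) ω
      have := phi_int h (n + k + 2) (fun T => (((y T)⁻¹ - ∑ i ∈ range (n + k), 1 / ((i : ℝ) + 1)) -
        ((y (T.filter (fun j => j < n + 2)))⁻¹ - ∑ i ∈ range n, 1 / ((i : ℝ) + 1))) ^ 2)
      simp only [hf] at this
      exact this
    have h2 : ∀ k, ∫⁻ ω, ENNReal.ofReal ((M A (n + k) ω - M A n ω) ^ 2) ∂P ≤ ENNReal.ofReal t := by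
      intro k
      rw [← ofReal_integral_eq_lintegral_ofReal (i2 k) (Eventually.of_forall fun ω => sq_nonneg _)]
      refine ENNReal.ofReal_le_ofReal ((M_tail h n k).trans ?_)
      have e : ∑ i ∈ range k, 2 / (((n + i : ℕ) : ℝ) + 1) ^ (3 / 2 : ℝ) =
          ∑ i ∈ range k, 2 / (((i + n : ℕ) : ℝ) + 1) ^ (3 / 2 : ℝ) :=
        sum_congr rfl fun i _ => by rw [add_comm n i]
      rw [e]
      exact hs.sum_le_tsum (range k) (fun i _ => by positivity)
    have h3 : liminf (fun k => ∫⁻ ω, ENNReal.ofReal ((M A (n + k) ω - M A n ω) ^ 2) ∂P) atTop ≤ ENNReal.ofReal t := by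
      have : liminf (fun k => ∫⁻ ω, ENNReal.ofReal ((M A (n + k) ω - M A n ω) ^ 2) ∂P) atTop ≤
          liminf (fun _ : ℕ => ENNReal.ofReal t) atTop :=
        liminf_le_liminf (Eventually.of_forall h2)
      rwa [liminf_const] at this
    have h4 : ∫⁻ ω, liminf (fun k => ENNReal.ofReal ((M A (n + k) ω - M A n ω) ^ 2)) atTop ∂P =
        ∫⁻ ω, ENNReal.ofReal ((M A n ω - c) ^ 2) ∂P := by
      refine lintegral_congr_ae ?_
      filter_upwards [hc] with ω hω
      have h5 : Tendsto (fun k => M A (n + k) ω) atTop (𝓝 c) := by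
        have := hω.comp (tendsto_add_atTop_nat n)
        refine this.congr fun k => ?_
        simp only [Function.comp_apply]
        rw [add_comm]
      have h6 : Tendsto (fun k => ENNReal.ofReal ((M A (n + k) ω - M A n ω) ^ 2)) atTop
          (𝓝 (ENNReal.ofReal ((c - M A n ω) ^ 2))) :=
        ENNReal.tendsto_ofReal ((h5.sub_const _).pow 2)
      rw [h6.liminf_eq]
      congr 1
      ring
    have i3 : Integrable (fun ω => (M A n ω - c) ^ 2) P :=
      phi_int h (n + 2) (fun T => (((y T)⁻¹ - ∑ i ∈ range n, 1 / ((i : ℝ) + 1)) - c) ^ 2)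
    rw [h4, ← ofReal_integral_eq_lintegral_ofReal i3 (Eventually.of_forall fun ω => sq_nonneg _)] at h1
    exact (ENNReal.ofReal_le_ofReal_iff ht0).1 (h1.trans h3)
  have htail : Tendsto (fun n : ℕ => ∑' i : ℕ, 2 / (((i + n : ℕ) : ℝ) + 1) ^ (3 / 2 : ℝ)) atTop (𝓝 0) :=
    tendsto_sum_nat_add (fun k : ℕ => 2 / ((k : ℝ) + 1) ^ (3 / 2 : ℝ))
  obtain ⟨n, hn⟩ := ((htail.comp (tendsto_add_atTop_nat 2)).eventually_lt_const
    (show (0 : ℝ) < 1 / 4 by norm_num)).exists
  have h1 := M_lower h c n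
  have h2 := hfat (n + 2)
  simp only [Function.comp_apply] at hn
  linarith

end Pool.Agent.T2H32.HK
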