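import Pool.Agent.T2H32.HK.Evt

set_option autoImplicit false

/-! # The Hawkins random sieve: long gaps -/

open MeasureTheory ProbabilityTheory Filter Topology Finset
open scoped ENNReal NNReal

namespace Pool.Agent.T2H32.HK

variable {Ω : Type*} [MeasurableSpace Ω] {P : Measure Ω} {E : ℕ → ℕ → Set Ω} {A : ℕ → Set Ω}

/-- no random prime in `(k, k + m]` -/
def Vd (A : ℕ → Set Ω) (k m : ℕ) : Set Ω := ⋂ j ∈ Ioc k (k + m), (A j)ᶜ

theorem Vd_meas (h : Model P E A) (k m : ℕ) : MeasurableSet (Vd A k m) :=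
  Finset.measurableSet_biInter _ fun j _ => (A_meas h j).compl

omit [MeasurableSpace Ω] in
theorem mem_Vd (A : ℕ → Set Ω) (k m : ℕ) (ω : Ω) : ω ∈ Vd A k m ↔ ∀ j, k < j → j ≤ k + m → ω ∉ A j := by
  simp only [Vd, Set.mem_iInter, Finset.mem_Ioc, Set.mem_compl_iff, and_imp]

omit [MeasurableSpace Ω] in
theorem S_Vd (A : ℕ → Set Ω) (k m : ℕ) (ω : Ω) (h : ω ∈ Vd A k m) : S A (k + m + 1) ω = S A (k + 1) ω := by
  rw [mem_Vd] at h
  ext j
  rw [mem_S, mem_S]
  constructor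
  · rintro ⟨h1, h2⟩
    refine ⟨?_, h2⟩
    by_contra h3
    exact h j (by omega) (by omega) h2
  · rintro ⟨h1, h2⟩
    exact ⟨by omega, h2⟩

open Classical in
omit [MeasurableSpace Ω] in
theorem ind_Vd (A : ℕ → Set Ω) (k m l : ℕ) (hl : k + m < l) (ω : Ω) :
    ind (Vd A k m) ω = if (∀ j, k < j → j ≤ k + m → j ∉ S A l ω) then 1 else 0 := by
  by_cases h : ω ∈ Vd A k m
  · rw [ind_of_mem _ _ h, if_pos]
    intro j h1 h2 h3
    exact (mem_Vd A k m ω).1 h j h1 h2 ((mem_S A l ω j).1 h3).2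
  · rw [ind_of_notMem _ _ h, if_neg]
    intro h1
    refine h ((mem_Vd A k m ω).2 fun j h2 h3 h4 => ?_)
    exact h1 j h2 h3 ((mem_S A l ω j).2 ⟨by omega, h4⟩)

/-- the probability that there is no random prime in `(k, k + m]`, given the random primes up to `k` -/
theorem int_Vd (h : Model P E A) (k : ℕ) (hk : 1 ≤ k) (m : ℕ) : ∀ φ : Finset ℕ → ℝ,
    ∫ ω, φ (S A (k + 1) ω) * ind (Vd A k m) ω ∂P =
      ∫ ω, φ (S A (k + 1) ω) * (1 - y (S A (k + 1) ω)) ^ m ∂P := by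
  classical
  have := prob h
  induction m with
  | zero =>
    intro φ
    refine integral_congr_ae (Eventually.of_forall fun ω => ?_)
    simp only
    rw [ind_of_mem _ _ ((mem_Vd A k 0 ω).2 (fun j h1 h2 => absurd h2 (by omega)))]
    simp
  | succ m ih =>
    intro φ
    set Φ : Finset ℕ → ℝ := fun T => φ (T.filter (fun j => j < k + 1)) *
      (if (∀ j, k < j → j ≤ k + m → j ∉ T) then 1 else 0) with hΦ
    have hΦω : ∀ ω, Φ (S A (k + m + 1) ω) = φ (S A (k + 1) ω) * ind (Vd A k m) ω := by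
      intro ω
      simp only [hΦ]
      rw [S_filter A (k + 1) (k + m + 1) (by omega) ω, ind_Vd A k m (k + m + 1) (by omega) ω]
    have h1 := int_A h (k + m + 1) (by omega) Φ
    have e1 : (fun ω => φ (S A (k + 1) ω) * ind (Vd A k (m + 1)) ω) = fun ω =>
        Φ (S A (k + m + 1) ω) - Φ (S A (k + m + 1) ω) * ind (A (k + m + 1)) ω := by
      funext ω
      rw [hΦω ω]
      by_cases hV : ω ∈ Vd A k m
      · by_cases hA : ω ∈ A (k + m + 1)
        · have : ω ∉ Vd A k (m + 1) := fun h' => (mem_Vd A k (m + 1) ω).1 h' (k + m + 1) (by omega) (by omega) hA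
          rw [ind_of_notMem _ _ this, ind_of_mem _ _ hV, ind_of_mem _ _ hA]
          ring
        · have : ω ∈ Vd A k (m + 1) := by
            rw [mem_Vd]
            intro j h1 h2
            by_cases h3 : j = k + m + 1
            · rw [h3]; exact hA
            · exact (mem_Vd A k m ω).1 hV j h1 (by omega)
          rw [ind_of_mem _ _ this, ind_of_mem _ _ hV, ind_of_notMem _ _ hA]
          ring
      · have : ω ∉ Vd A k (m + 1) := by
          intro h'
          refine hV ((mem_Vd A k m ω).2 fun j h1 h2 => ?_)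
          exact (mem_Vd A k (m + 1) ω).1 h' j h1 (by omega)
        rw [ind_of_notMem _ _ this, ind_of_notMem _ _ hV]
        ring
    obtain ⟨C, hC⟩ := phi_bdd A (k + m + 1) Φ
    have i1 : Integrable (fun ω => Φ (S A (k + m + 1) ω) * ind (A (k + m + 1)) ω) P := by
      refine Integrable.of_bound ((phi_meas h _ Φ).mul (ind_meas _ (A_meas h _))).aestronglyMeasurable C
        (Eventually.of_forall fun ω => ?_)
      rw [Real.norm_eq_abs, abs_mul, abs_of_nonneg (ind_nonneg _ _)]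
      calc |Φ (S A (k + m + 1) ω)| * ind (A (k + m + 1)) ω ≤ |Φ (S A (k + m + 1) ω)| * 1 := by
            gcongr
            exact ind_le _ _
        _ ≤ C := by rw [mul_one]; exact hC ω
    rw [e1, integral_sub (phi_int h _ Φ) i1, h1, ← integral_sub (phi_int h _ Φ)
      (phi_int h (k + m + 1) (fun T => Φ T * y T))]
    have e2 : (fun ω => Φ (S A (k + m + 1) ω) - Φ (S A (k + m + 1) ω) * y (S A (k + m + 1) ω)) = fun ω =>
        (fun T => φ T * (1 - y T)) (S A (k + 1) ω) * ind (Vd A k m) ω := by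
      funext ω
      rw [hΦω ω]
      by_cases hV : ω ∈ Vd A k m
      · rw [S_Vd A k m ω hV]
        ring
      · rw [ind_of_notMem _ _ hV]
        ring
    rw [e2, ih (fun T => φ T * (1 - y T))]
    refine integral_congr_ae (Eventually.of_forall fun ω => ?_)
    simp only
    ring

theorem int_Vd_int (h : Model P E A) (k m : ℕ) (φ : Finset ℕ → ℝ) :
    Integrable (fun ω => φ (S A (k + 1) ω) * ind (Vd A k m) ω) P := by
  have := prob h
  obtain ⟨C, hC⟩ := phi_bdd A (k + 1) φ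
  refine Integrable.of_bound ((phi_meas h _ φ).mul (ind_meas _ (Vd_meas h k m))).aestronglyMeasurable C
    (Eventually.of_forall fun ω => ?_)
  rw [Real.norm_eq_abs, abs_mul, abs_of_nonneg (ind_nonneg _ _)]
  calc |φ (S A (k + 1) ω)| * ind (Vd A k m) ω ≤ |φ (S A (k + 1) ω)| * 1 := by
        gcongr
        exact ind_le _ _
    _ ≤ C := by rw [mul_one]; exact hC ω

/-- the centred form -/
theorem int_Vd0 (h : Model P E A) (k : ℕ) (hk : 1 ≤ k) (m : ℕ) (φ : Finset ℕ → ℝ) :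
    ∫ ω, φ (S A (k + 1) ω) * (ind (Vd A k m) ω - (1 - y (S A (k + 1) ω)) ^ m) ∂P = 0 := by
  have e : (fun ω => φ (S A (k + 1) ω) * (ind (Vd A k m) ω - (1 - y (S A (k + 1) ω)) ^ m)) = fun ω =>
      φ (S A (k + 1) ω) * ind (Vd A k m) ω - φ (S A (k + 1) ω) * (1 - y (S A (k + 1) ω)) ^ m := by
    funext ω; ring
  rw [e, integral_sub (int_Vd_int h k m φ) (phi_int h (k + 1) (fun T => φ T * (1 - y T) ^ m)),
    int_Vd h k hk m φ, sub_self]

/-- the second moment -/
theorem int_Vd2 (h : Model P E A) (k : ℕ) (hk : 1 ≤ k) (m : ℕ) (φ : Finset ℕ → ℝ) :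
    ∫ ω, φ (S A (k + 1) ω) * (ind (Vd A k m) ω - (1 - y (S A (k + 1) ω)) ^ m) ^ 2 ∂P =
      ∫ ω, φ (S A (k + 1) ω) * ((1 - y (S A (k + 1) ω)) ^ m * (1 - (1 - y (S A (k + 1) ω)) ^ m)) ∂P := by
  have h1 := int_Vd h k hk m (fun T => φ T * (1 - 2 * (1 - y T) ^ m))
  have e : (fun ω => φ (S A (k + 1) ω) * (ind (Vd A k m) ω - (1 - y (S A (k + 1) ω)) ^ m) ^ 2) = fun ω =>
      (fun T => φ T * (1 - 2 * (1 - y T) ^ m)) (S A (k + 1) ω) * ind (Vd A k m) ω +
        (fun T => φ T * ((1 - y T) ^ m) ^ 2) (S A (k + 1) ω) := by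
    funext ω
    have h2 : ind (Vd A k m) ω ^ 2 = ind (Vd A k m) ω := by
      by_cases hA : ω ∈ Vd A k m
      · rw [ind_of_mem _ _ hA]; norm_num
      · rw [ind_of_notMem _ _ hA]; norm_num
    simp only
    linear_combination φ (S A (k + 1) ω) * h2
  rw [e, integral_add (int_Vd_int h k m (fun T => φ T * (1 - 2 * (1 - y T) ^ m)))
    (phi_int h (k + 1) (fun T => φ T * ((1 - y T) ^ m) ^ 2)), h1, ← integral_add
    (phi_int h (k + 1) (fun T => φ T * (1 - 2 * (1 - y T) ^ m) * (1 - y T) ^ m))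
    (phi_int h (k + 1) (fun T => φ T * ((1 - y T) ^ m) ^ 2))]
  refine integral_congr_ae (Eventually.of_forall fun ω => ?_)
  simp only
  ring

open Classical in
/-- the truncated weights of the second strong law -/
noncomputable def gg (K : ℕ) (C : ℝ) (k : ℕ) (T : Finset ℕ) : ℝ :=
  if K ≤ k ∧ k ∈ T ∧ (y T)⁻¹ ≤ Real.log k + C then 1 else 0

theorem gg_nonneg (K : ℕ) (C : ℝ) (k : ℕ) (T : Finset ℕ) : 0 ≤ gg K C k T := by
  unfold gg
  split_ifs <;> norm_num

theorem gg_le (K : ℕ) (C : ℝ) (k : ℕ) (T : Finset ℕ) : gg K C k T ≤ 1 := by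
  unfold gg
  split_ifs <;> norm_num

theorem gg_sq (K : ℕ) (C : ℝ) (k : ℕ) (T : Finset ℕ) : gg K C k T ^ 2 = gg K C k T := by
  unfold gg
  split_ifs <;> norm_num

/-- orthogonality -/
theorem orth2 (h : Model P E A) (K : ℕ) (C : ℝ) (m : ℕ → ℕ) (k l : ℕ) (hkl : k < l) :
    ∫ ω, (gg K C k (S A (k + 1) ω) * ind (Vd A k (m k)) ω -
        gg K C k (S A (k + 1) ω) * (1 - y (S A (k + 1) ω)) ^ m k) *
      (gg K C l (S A (l + 1) ω) * ind (Vd A l (m l)) ω -
        gg K C l (S A (l + 1) ω) * (1 - y (S A (l + 1) ω)) ^ m l) ∂P = 0 := by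
  classical
  have h1 := int_Vd0 h l (by omega) (m l) (fun T => gg K C k (T.filter (fun j => j < k + 1)) *
    ((if (∀ j, k < j → j ≤ k + m k → j ∉ T) then 1 else 0) - (1 - y (T.filter (fun j => j < k + 1))) ^ m k) *
      gg K C l T)
  rw [← h1]
  refine integral_congr_ae (Eventually.of_forall fun ω => ?_)
  simp only
  rw [S_filter A (k + 1) (l + 1) (by omega) ω]
  by_cases hl : l ∈ S A (l + 1) ω
  · have e : ind (Vd A k (m k)) ω = if (∀ j, k < j → j ≤ k + m k → j ∉ S A (l + 1) ω) then 1 else 0 := by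
      rcases lt_or_ge (k + m k) (l + 1) with h2 | h2
      · exact ind_Vd A k (m k) (l + 1) h2 ω
      · rw [if_neg (fun h3 => h3 l hkl (by omega) hl), ind_of_notMem]
        intro h3
        exact (mem_Vd A k (m k) ω).1 h3 l hkl (by omega) ((mem_S A (l + 1) ω l).1 hl).2
    rw [e]
    ring
  · have e : gg K C l (S A (l + 1) ω) = 0 := by
      unfold gg
      rw [if_neg (fun h2 => hl h2.2.1)]
    rw [e]
    ring

/-- second moments -/
theorem sq2 (h : Model P E A) (K : ℕ) (C : ℝ) (m : ℕ) (k : ℕ) (hk : 2 ≤ k) (r : ℝ) (hr0 : 0 ≤ r)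
    (hr : ∀ z : ℝ, 1 ≤ z → z ≤ Real.log k + C → (1 - z⁻¹) ^ m ≤ r) :
    ∫ ω, (gg K C k (S A (k + 1) ω) * ind (Vd A k m) ω -
        gg K C k (S A (k + 1) ω) * (1 - y (S A (k + 1) ω)) ^ m) ^ 2 ∂P ≤ r * ∫ ω, y (S A k ω) ∂P := by
  have := prob h
  have h1 := int_Vd2 h k (by omega) m (gg K C k)
  have e : (fun ω => (gg K C k (S A (k + 1) ω) * ind (Vd A k m) ω -
        gg K C k (S A (k + 1) ω) * (1 - y (S A (k + 1) ω)) ^ m) ^ 2) = fun ω =>
      gg K C k (S A (k + 1) ω) * (ind (Vd A k m) ω - (1 - y (S A (k + 1) ω)) ^ m) ^ 2 := by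
    funext ω
    have h2 := gg_sq K C k (S A (k + 1) ω)
    linear_combination (ind (Vd A k m) ω - (1 - y (S A (k + 1) ω)) ^ m) ^ 2 * h2
  rw [e, h1]
  have h2 : ∀ ω, gg K C k (S A (k + 1) ω) * ((1 - y (S A (k + 1) ω)) ^ m * (1 - (1 - y (S A (k + 1) ω)) ^ m)) ≤
      r * ind (A k) ω := by
    intro ω
    have a1 := y_pos h (k + 1) ω
    have a2 := y_le_one h (k + 1) ω
    by_cases hg : K ≤ k ∧ k ∈ S A (k + 1) ω ∧ (y (S A (k + 1) ω))⁻¹ ≤ Real.log k + C
    · have a3 : gg K C k (S A (k + 1) ω) = 1 := by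
        unfold gg
        rw [if_pos hg]
      rw [a3, one_mul, ind_of_mem _ _ ((mem_S A (k + 1) ω k).1 hg.2.1).2, mul_one]
      have a4 := hr _ (one_le_Z h (k + 1) ω) hg.2.2
      have a5 : (Z A (k + 1) ω)⁻¹ = y (S A (k + 1) ω) := inv_inv _
      rw [a5] at a4
      have a6 : 0 ≤ (1 - y (S A (k + 1) ω)) ^ m := pow_nonneg (by linarith) _
      nlinarith
    · have a3 : gg K C k (S A (k + 1) ω) = 0 := by
        unfold gg
        rw [if_neg hg]
      rw [a3, zero_mul]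
      exact mul_nonneg hr0 (ind_nonneg _ _)
  have h3 := int_A h k hk (fun _ => 1)
  simp only [one_mul] at h3
  calc _ ≤ ∫ ω, r * ind (A k) ω ∂P :=
        integral_mono (phi_int h (k + 1) (fun T => gg K C k T * ((1 - y T) ^ m * (1 - (1 - y T) ^ m))))
          ((ind_integrable _ (A_meas h k)).const_mul r) h2
    _ = _ := by rw [integral_const_mul, h3]

/-- first moments of the truncated events -/
theorem first2 (h : Model P E A) (K : ℕ) (C : ℝ) (m : ℕ) (k : ℕ) (hk : 2 ≤ k) (r : ℝ) (hr0 : 0 ≤ r)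
    (hr : ∀ z : ℝ, 1 ≤ z → z ≤ Real.log k + C → (1 - z⁻¹) ^ m ≤ r) :
    ∫ ω, gg K C k (S A (k + 1) ω) * ind (Vd A k m) ω ∂P ≤ r * ∫ ω, y (S A k ω) ∂P := by
  have := prob h
  rw [int_Vd h k (by omega) m (gg K C k)]
  have h2 : ∀ ω, gg K C k (S A (k + 1) ω) * (1 - y (S A (k + 1) ω)) ^ m ≤ r * ind (A k) ω := by
    intro ω
    have a1 := y_pos h (k + 1) ω
    have a2 := y_le_one h (k + 1) ω
    by_cases hg : K ≤ k ∧ k ∈ S A (k + 1) ω ∧ (y (S A (k + 1) ω))⁻¹ ≤ Real.log k + C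
    · have a3 : gg K C k (S A (k + 1) ω) = 1 := by
        unfold gg
        rw [if_pos hg]
      rw [a3, one_mul, ind_of_mem _ _ ((mem_S A (k + 1) ω k).1 hg.2.1).2, mul_one]
      have a4 := hr _ (one_le_Z h (k + 1) ω) hg.2.2
      have a5 : (Z A (k + 1) ω)⁻¹ = y (S A (k + 1) ω) := inv_inv _
      rwa [a5] at a4
    · have a3 : gg K C k (S A (k + 1) ω) = 0 := by
        unfold gg
        rw [if_neg hg]
      rw [a3, zero_mul]
      exact mul_nonneg hr0 (ind_nonneg _ _)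
  have h3 := int_A h k hk (fun _ => 1)
  simp only [one_mul] at h3
  calc _ ≤ ∫ ω, r * ind (A k) ω ∂P :=
        integral_mono (phi_int h (k + 1) (fun T => gg K C k T * (1 - y T) ^ m))
          ((ind_integrable _ (A_meas h k)).const_mul r) h2
    _ = _ := by rw [integral_const_mul, h3]

theorem D2_memLp (h : Model P E A) (k m : ℕ) (φ : Finset ℕ → ℝ) :
    MemLp (fun ω => φ (S A (k + 1) ω) * ind (Vd A k m) ω - φ (S A (k + 1) ω) * (1 - y (S A (k + 1) ω)) ^ m) 2 P := by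
  have := prob h
  obtain ⟨C, hC⟩ := phi_bdd A (k + 1) φ
  refine MemLp.of_bound (((phi_meas h _ φ).mul (ind_meas _ (Vd_meas h k m))).sub
    ((phi_meas h _ φ).mul (phi_meas h _ (fun T => (1 - y T) ^ m)))).aestronglyMeasurable C
    (Eventually.of_forall fun ω => ?_)
  rw [← mul_sub, Real.norm_eq_abs, abs_mul]
  have h3 : |ind (Vd A k m) ω - (1 - y (S A (k + 1) ω)) ^ m| ≤ 1 := by
    have a1 := ind_nonneg (Vd A k m) ω
    have a2 := ind_le (Vd A k m) ω
    have a3 := y_pos h (k + 1) ω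
    have a4 := y_le_one h (k + 1) ω
    have a5 : 0 ≤ (1 - y (S A (k + 1) ω)) ^ m := pow_nonneg (by linarith) _
    have a6 : (1 - y (S A (k + 1) ω)) ^ m ≤ 1 := pow_le_one₀ (by linarith) (by linarith)
    rw [abs_le]
    constructor <;> linarith
  calc _ ≤ |φ (S A (k + 1) ω)| * 1 := by gcongr
    _ ≤ C := by rw [mul_one]; exact hC ω

end Pool.Agent.T2H32.HK
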