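import Mathlib

set_option autoImplicit false

/-! # The Hawkins random sieve: the finite dimensional laws -/

open MeasureTheory ProbabilityTheory Filter Topology Finset
open scoped ENNReal

namespace Pool.Agent.T2H32.HK

/-- `E j k`: the integer `k` is struck out at the stage of the random prime `j`; `A k`: `k` is a random prime -/
structure Model {Ω : Type*} [MeasurableSpace Ω] (P : Measure Ω) (E : ℕ → ℕ → Set Ω) (A : ℕ → Set Ω) : Prop where
  measurable : ∀ j k, MeasurableSet (E j k)
  independent : iIndepSet (fun q : ℕ × ℕ => E q.1 q.2) P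
  probability : ∀ j k, 2 ≤ j → j < k → P.real (E j k) = 1 / j
  sieve : ∀ ω k, ω ∈ A k ↔ 2 ≤ k ∧ ∀ j < k, ω ∈ A j → ω ∉ E j k

variable {Ω : Type*} [MeasurableSpace Ω] {P : Measure Ω} {E : ℕ → ℕ → Set Ω} {A : ℕ → Set Ω}

theorem prob (h : Model P E A) : IsProbabilityMeasure P := h.independent.isProbabilityMeasure

/-- σ-algebra of the strikes with index in `K` -/
@[instance_reducible]
def sg (E : ℕ → ℕ → Set Ω) (K : Set (ℕ × ℕ)) : MeasurableSpace Ω :=
  ⨆ q ∈ K, MeasurableSpace.generateFrom {E q.1 q.2}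

omit [MeasurableSpace Ω] in
theorem sg_mem (E : ℕ → ℕ → Set Ω) (K : Set (ℕ × ℕ)) (j k : ℕ) (hq : (j, k) ∈ K) :
    @MeasurableSet _ (sg E K) (E j k) := by
  have h1 : MeasurableSpace.generateFrom {E j k} ≤ sg E K :=
    le_iSup₂_of_le (f := fun (q : ℕ × ℕ) (_ : q ∈ K) => MeasurableSpace.generateFrom {E q.1 q.2}) (j, k) hq le_rfl
  exact h1 _ (MeasurableSpace.measurableSet_generateFrom rfl)

theorem gen_le (h : Model P E A) (q : ℕ × ℕ) :
    MeasurableSpace.generateFrom {E q.1 q.2} ≤ (inferInstance : MeasurableSpace Ω) := by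
  refine MeasurableSpace.generateFrom_le ?_
  rintro u rfl
  exact h.measurable _ _

theorem sg_le (h : Model P E A) (K : Set (ℕ × ℕ)) : sg E K ≤ (inferInstance : MeasurableSpace Ω) :=
  iSup₂_le fun q _ => gen_le h q

theorem indep_sg (h : Model P E A) (K L : Set (ℕ × ℕ)) (hd : Disjoint K L) (B C : Set Ω)
    (hB : @MeasurableSet _ (sg E K) B) (hC : @MeasurableSet _ (sg E L) C) :
    P.real (B ∩ C) = P.real B * P.real C := by
  have h1 : Indep (sg E K) (sg E L) P :=
    indep_iSup_of_disjoint (fun q => gen_le h q) h.independent hd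
  have h2 := (Indep_iff _ _ P).1 h1 B C hB hC
  rw [measureReal_def, h2, ENNReal.toReal_mul]
  rfl

omit [MeasurableSpace Ω] in
theorem sg_mono (E : ℕ → ℕ → Set Ω) (K L : Set (ℕ × ℕ)) (h : K ⊆ L) : sg E K ≤ sg E L :=
  iSup₂_le fun q hq => le_iSup₂_of_le
    (f := fun (q : ℕ × ℕ) (_ : q ∈ L) => MeasurableSpace.generateFrom {E q.1 q.2}) q (h hq) le_rfl

theorem A_empty (h : Model P E A) (k : ℕ) (hk : k < 2) : A k = ∅ := by
  ext ω
  rw [h.sieve]
  simp only [Set.mem_empty_iff_false, iff_false, not_and]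
  omega

theorem A_sg (h : Model P E A) (k : ℕ) : @MeasurableSet _ (sg E {q | q.2 ≤ k}) (A k) := by
  induction k using Nat.strong_induction_on with
  | _ k ih =>
    by_cases hk : k < 2
    · rw [A_empty h k hk]
      exact @MeasurableSet.empty _ (sg E {q | q.2 ≤ k})
    · have e : A k = ⋂ j ∈ range k, ((A j)ᶜ ∪ (E j k)ᶜ) := by
        ext ω
        rw [h.sieve]
        simp only [Set.mem_iInter, Finset.mem_range, Set.mem_union, Set.mem_compl_iff]
        constructor
        · rintro ⟨-, h2⟩ j hj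
          by_cases h3 : ω ∈ A j
          · exact Or.inr (h2 j hj h3)
          · exact Or.inl h3
        · intro h1
          refine ⟨by omega, fun j hj hA => ?_⟩
          rcases h1 j hj with h3 | h3
          · exact absurd hA h3
          · exact h3
      rw [e]
      refine @Finset.measurableSet_biInter _ _ (sg E {q | q.2 ≤ k}) _ _ fun j hj => ?_
      rw [Finset.mem_range] at hj
      have h1 : @MeasurableSet _ (sg E {q | q.2 ≤ k}) (A j) :=
        sg_mono E _ _ (fun q (hq : q.2 ≤ j) => (by simp only [Set.mem_ofPred_eq]; omega)) _ (ih j hj)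
      have h2 : @MeasurableSet _ (sg E {q | q.2 ≤ k}) (E j k) := sg_mem E _ j k (show k ≤ k from le_rfl)
      exact h1.compl.union h2.compl

theorem A_meas (h : Model P E A) (k : ℕ) : MeasurableSet (A k) := sg_le h _ _ (A_sg h k)

open Classical in
/-- the random primes below `n` -/
noncomputable def S (A : ℕ → Set Ω) (n : ℕ) (ω : Ω) : Finset ℕ := (range n).filter (fun j => ω ∈ A j)

omit [MeasurableSpace Ω] in
theorem mem_S (A : ℕ → Set Ω) (n : ℕ) (ω : Ω) (j : ℕ) : j ∈ S A n ω ↔ j < n ∧ ω ∈ A j := by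
  classical
  simp [S]

omit [MeasurableSpace Ω] in
theorem S_sub (A : ℕ → Set Ω) (n : ℕ) (ω : Ω) : S A n ω ⊆ range n := by
  intro j hj
  exact Finset.mem_range.2 ((mem_S A n ω j).1 hj).1

/-- `∏ (1 - 1/j)` -/
noncomputable def y (T : Finset ℕ) : ℝ := ∏ j ∈ T, (1 - 1 / (j : ℝ))

omit [MeasurableSpace Ω] in
theorem S_eq (A : ℕ → Set Ω) (n : ℕ) (T : Finset ℕ) (hT : T ⊆ range n) :
    {ω | S A n ω = T} = ⋂ j ∈ range n, {ω | ω ∈ A j ↔ j ∈ T} := by
  classical
  ext ω
  simp only [S, Set.mem_ofPred_eq, Set.mem_iInter, Finset.mem_range]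
  constructor
  · intro h j hj
    rw [← h]
    simp [hj]
  · intro h
    ext j
    rw [mem_filter, Finset.mem_range]
    constructor
    · rintro ⟨h1, h2⟩
      exact (h j h1).1 h2
    · intro h1
      have h2 := Finset.mem_range.1 (hT h1)
      exact ⟨h2, (h j h2).2 h1⟩

theorem S_sg (h : Model P E A) (n : ℕ) (T : Finset ℕ) (hT : T ⊆ range n) :
    @MeasurableSet _ (sg E {q | q.2 < n}) {ω | S A n ω = T} := by
  rw [S_eq A n T hT]
  refine @Finset.measurableSet_biInter _ _ (sg E {q | q.2 < n}) _ _ fun j hj => ?_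
  rw [Finset.mem_range] at hj
  have h1 : @MeasurableSet _ (sg E {q | q.2 < n}) (A j) :=
    sg_mono E _ _ (fun q (hq : q.2 ≤ j) => (by simp only [Set.mem_ofPred_eq]; omega)) _ (A_sg h j)
  by_cases hjT : j ∈ T
  · have e : {ω | ω ∈ A j ↔ j ∈ T} = A j := by ext ω; simp [hjT]
    rw [e]
    exact h1
  · have e : {ω | ω ∈ A j ↔ j ∈ T} = (A j)ᶜ := by ext ω; simp [hjT]
    rw [e]
    exact h1.compl

theorem S_meas (h : Model P E A) (n : ℕ) (T : Finset ℕ) : MeasurableSet {ω | S A n ω = T} := by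
  by_cases hT : T ⊆ range n
  · exact sg_le h _ _ (S_sg h n T hT)
  · have e : {ω | S A n ω = T} = ∅ := by
      ext ω
      simp only [Set.mem_ofPred_eq, Set.mem_empty_iff_false, iff_false]
      rintro rfl
      exact hT (S_sub _ _ _)
    rw [e]
    exact MeasurableSet.empty

/-- the law: given the random primes below `n`, the integer `n ≥ 2` is a random prime with probability `y` -/
theorem law (h : Model P E A) (n : ℕ) (hn : 2 ≤ n) (T : Finset ℕ) :
    P.real ({ω | S A n ω = T} ∩ A n) = P.real {ω | S A n ω = T} * y T := by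
  by_cases hT : T ⊆ range n
  swap
  · have e : {ω | S A n ω = T} = ∅ := by
      ext ω
      simp only [Set.mem_ofPred_eq, Set.mem_empty_iff_false, iff_false]
      rintro rfl
      exact hT (S_sub _ _ _)
    rw [e]
    simp
  have := prob h
  by_cases hT2 : ∀ j ∈ T, 2 ≤ j
  swap
  · have e : {ω | S A n ω = T} = ∅ := by
      ext ω
      simp only [Set.mem_ofPred_eq, Set.mem_empty_iff_false, iff_false]
      rintro rfl
      refine hT2 fun j hj => ?_
      exact ((h.sieve ω j).1 ((mem_S A n ω j).1 hj).2).1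
    rw [e]
    simp
  have e1 : {ω | S A n ω = T} ∩ A n = {ω | S A n ω = T} ∩ ⋂ q ∈ T.map ⟨fun j => (j, n), fun a b hab => (Prod.mk.inj hab).1⟩, (E q.1 q.2)ᶜ := by
    ext ω
    simp only [Set.mem_inter_iff, Set.mem_ofPred_eq, Set.mem_iInter, Finset.mem_map, Function.Embedding.coeFn_mk,
      Set.mem_compl_iff]
    refine and_congr_right fun hS => ?_
    rw [h.sieve]
    constructor
    · rintro ⟨-, h2⟩ q ⟨j, hj, rfl⟩
      rw [← hS] at hj
      have := (mem_S A n ω j).1 hj
      exact h2 j this.1 this.2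
    · intro h2
      refine ⟨hn, fun j hj hA => ?_⟩
      refine h2 (j, n) ⟨j, ?_, rfl⟩
      rw [← hS]
      exact (mem_S A n ω j).2 ⟨hj, hA⟩
  rw [e1]
  have hI : @MeasurableSet _ (sg E {q | q.2 = n})
      (⋂ q ∈ T.map ⟨fun j => (j, n), fun a b hab => (Prod.mk.inj hab).1⟩, (E q.1 q.2)ᶜ) := by
    refine @Finset.measurableSet_biInter _ _ (sg E {q | q.2 = n}) _ _ fun q hq => ?_
    rw [Finset.mem_map] at hq
    obtain ⟨j, hj, rfl⟩ := hq
    exact (sg_mem E _ j n (show n = n from rfl)).compl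
  rw [indep_sg h {q | q.2 < n} {q | q.2 = n} ?_ _ _ (S_sg h n T hT) hI]
  · congr 1
    have h1 := (iIndepSet_iff _ P).1 h.independent
      (T.map ⟨fun j => (j, n), fun a b hab => (Prod.mk.inj hab).1⟩) (f := fun q => (E q.1 q.2)ᶜ)
      (fun q _ => by
        have h0 : @MeasurableSet _ (MeasurableSpace.generateFrom {E q.1 q.2}) (E q.1 q.2) :=
          MeasurableSpace.measurableSet_generateFrom rfl
        exact h0.compl)
    rw [measureReal_def, h1, ENNReal.toReal_prod, prod_map]
    unfold y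
    refine prod_congr rfl fun j hj => ?_
    change (P (E j n)ᶜ).toReal = _
    rw [← measureReal_def, probReal_compl_eq_one_sub (h.measurable j n),
      h.probability j n (hT2 j hj) (Finset.mem_range.1 (hT hj))]
  · rw [Set.disjoint_left]
    intro q h1 h2
    simp only [Set.mem_ofPred_eq] at h1 h2
    omega

/-- indicator functions -/
noncomputable def ind (B : Set Ω) (ω : Ω) : ℝ := B.indicator (fun _ => (1 : ℝ)) ω

omit [MeasurableSpace Ω] in
theorem ind_of_mem (B : Set Ω) (ω : Ω) (h : ω ∈ B) : ind B ω = 1 := by simp [ind, h]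

omit [MeasurableSpace Ω] in
theorem ind_of_notMem (B : Set Ω) (ω : Ω) (h : ω ∉ B) : ind B ω = 0 := by simp [ind, h]

omit [MeasurableSpace Ω] in
theorem ind_nonneg (B : Set Ω) (ω : Ω) : 0 ≤ ind B ω := Set.indicator_nonneg (fun _ _ => zero_le_one) _

omit [MeasurableSpace Ω] in
theorem ind_le (B : Set Ω) (ω : Ω) : ind B ω ≤ 1 := by
  by_cases h : ω ∈ B
  · rw [ind_of_mem B ω h]
  · rw [ind_of_notMem B ω h]; norm_num

theorem ind_integrable [IsProbabilityMeasure P] (B : Set Ω) (hB : MeasurableSet B) : Integrable (ind B) P :=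
  (integrable_const (1 : ℝ)).indicator hB

theorem ind_meas (B : Set Ω) (hB : MeasurableSet B) : Measurable (ind B) :=
  measurable_const.indicator hB

theorem phi_meas (h : Model P E A) (n : ℕ) (φ : Finset ℕ → ℝ) : Measurable (fun ω => φ (S A n ω)) := by
  have e : (fun ω => φ (S A n ω)) = fun ω => ∑ T ∈ (range n).powerset, φ T * ind {ω | S A n ω = T} ω := by
    funext ω
    rw [sum_eq_single (S A n ω)]
    · rw [ind_of_mem {ω' | S A n ω' = S A n ω} ω (by simp), mul_one]
    · intro T _ hT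
      rw [ind_of_notMem _ _ (fun hT' => hT hT'.symm), mul_zero]
    · intro h1
      exact absurd (mem_powerset.2 (S_sub A n ω)) h1
  rw [e]
  exact Finset.measurable_fun_sum _ fun T _ => (ind_meas _ (S_meas h n T)).const_mul _

omit [MeasurableSpace Ω] in
theorem phi_bdd (A : ℕ → Set Ω) (n : ℕ) (φ : Finset ℕ → ℝ) : ∃ C, ∀ ω, |φ (S A n ω)| ≤ C := by
  refine ⟨∑ T ∈ (range n).powerset, |φ T|, fun ω => ?_⟩
  exact single_le_sum (f := fun T => |φ T|) (fun _ _ => abs_nonneg _) (mem_powerset.2 (S_sub A n ω))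

theorem phi_int (h : Model P E A) (n : ℕ) (φ : Finset ℕ → ℝ) : Integrable (fun ω => φ (S A n ω)) P := by
  have := prob h
  obtain ⟨C, hC⟩ := phi_bdd A n φ
  exact Integrable.of_bound (phi_meas h n φ).aestronglyMeasurable C (Eventually.of_forall hC)

theorem int_split (h : Model P E A) (n : ℕ) (φ : Finset ℕ → ℝ) (g : Ω → ℝ) (hg : Integrable g P) :
    ∫ ω, φ (S A n ω) * g ω ∂P = ∑ T ∈ (range n).powerset, φ T * ∫ ω in {ω | S A n ω = T}, g ω ∂P := by
  have e : (fun ω => φ (S A n ω) * g ω) = fun ω => ∑ T ∈ (range n).powerset,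
      φ T * {ω | S A n ω = T}.indicator g ω := by
    funext ω
    rw [sum_eq_single (S A n ω)]
    · rw [Set.indicator_of_mem (by rfl)]
    · intro T _ hT
      rw [Set.indicator_of_notMem (fun hT' => hT hT'.symm), mul_zero]
    · intro h1
      exact absurd (mem_powerset.2 (S_sub A n ω)) h1
  rw [e, integral_finsetSum _ fun T _ => (hg.indicator (S_meas h n T)).const_mul _]
  refine sum_congr rfl fun T _ => ?_
  rw [integral_const_mul, integral_indicator (S_meas h n T)]

/-- the conditional probability of `A n` given the past -/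
theorem int_A (h : Model P E A) (n : ℕ) (hn : 2 ≤ n) (φ : Finset ℕ → ℝ) :
    ∫ ω, φ (S A n ω) * ind (A n) ω ∂P = ∫ ω, φ (S A n ω) * y (S A n ω) ∂P := by
  have := prob h
  rw [int_split h n φ _ (ind_integrable _ (A_meas h n)), int_split h n φ _ (phi_int h n y)]
  refine sum_congr rfl fun T _ => ?_
  congr 1
  have h1 : ∫ ω in {ω | S A n ω = T}, ind (A n) ω ∂P = P.real ({ω | S A n ω = T} ∩ A n) := by
    unfold ind
    rw [setIntegral_indicator (A_meas h n), setIntegral_const, smul_eq_mul, mul_one]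
  have h2 : ∫ ω in {ω | S A n ω = T}, y (S A n ω) ∂P = P.real {ω | S A n ω = T} * y T := by
    rw [setIntegral_congr_fun (g := fun _ => y T) (S_meas h n T)]
    · rw [setIntegral_const, smul_eq_mul]
    · intro ω hω
      have : S A n ω = T := hω
      simp only [this]
  rw [h1, h2, law h n hn T]

end Pool.Agent.T2H32.HK
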