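import Pool.Agent.T2H32.HK.Gap2
import Pool.Agent.T2H32.HK.Asy
import Pool.Agent.T2H32.CM.Main

set_option autoImplicit false

/-! # The Hawkins random sieve: the number of long gaps -/

open MeasureTheory ProbabilityTheory Filter Topology Finset
open scoped ENNReal NNReal

namespace Pool.Agent.T2H32.HK

variable {Ω : Type*} [MeasurableSpace Ω] {P : Measure Ω} {E : ℕ → ℕ → Set Ω} {A : ℕ → Set Ω}

/-- the terms of the main sum -/
noncomputable def vv (ψ : ℕ → ℝ) (k : ℕ) : ℝ := if 3 ≤ k then Real.exp (-ψ k) / (k * Real.log k) else 0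

theorem vv_nonneg (ψ : ℕ → ℝ) (k : ℕ) : 0 ≤ vv ψ k := by
  unfold vv
  split_ifs
  · have := Real.log_natCast_nonneg k
    positivity
  · exact le_rfl

theorem log_ge_one (k : ℕ) (hk : 3 ≤ k) : 1 ≤ Real.log k := by
  rw [Real.le_log_iff_exp_le (by positivity)]
  have h2 := Real.exp_one_lt_d9
  have h3 : (3 : ℝ) ≤ k := by exact_mod_cast hk
  linarith

omit [MeasurableSpace Ω] in
theorem E_iff (A : ℕ → Set Ω) (ψ : ℕ → ℝ) (k : ℕ) (ω : Ω) :
    ω ∈ Pool.Agent.T2H32.CM.E A ψ k ↔ ω ∈ A k ∧ ω ∈ Vd A k (Pool.Agent.T2H32.CM.m ψ k) := Iff.rfl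

theorem Z_shift (A : ℕ → Set Ω) (ω : Ω) (L : ℝ) (h : Tendsto (fun k => Z A k ω - Real.log k) atTop (𝓝 L)) :
    Tendsto (fun k => Z A (k + 1) ω - Real.log k) atTop (𝓝 L) := by
  have h1 := h.comp (tendsto_add_atTop_nat 1)
  have h2 : Tendsto (fun n : ℕ => Real.log (n + 1 : ℕ) - Real.log n) atTop (𝓝 0) := by
    have h3 : Tendsto (fun n : ℕ => 1 + 1 / (n : ℝ)) atTop (𝓝 (1 + 0)) :=
      tendsto_const_nhds.add (tendsto_const_div_atTop_nhds_zero_nat 1)
    rw [add_zero] at h3
    have h4 := h3.log one_ne_zero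
    rw [Real.log_one] at h4
    refine h4.congr' ?_
    filter_upwards [eventually_ge_atTop 1] with n hn
    have : (0 : ℝ) < n := by exact_mod_cast hn
    rw [← Real.log_div (by positivity) (by positivity)]
    congr 1
    push_cast
    field_simp
  have h3 := h1.add h2
  rw [add_zero] at h3
  refine h3.congr fun n => ?_
  simp only [Function.comp_apply]
  ring

/-- **The number of long gaps, divergent case.** -/
theorem main_div (h : Model P E A) (ψ : ℕ → ℝ) (hψ : Tendsto (fun k : ℕ => ψ k / Real.log k) atTop (𝓝 0))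
    (hF : Tendsto (fun n => ∑ k ∈ range n, vv ψ k) atTop atTop) :
    ∀ᵐ ω ∂P, ∀ L : ℝ, Tendsto (fun k => Z A k ω - Real.log k) atTop (𝓝 L) →
      Tendsto (fun n => Pool.Agent.T2H32.CM.S (Pool.Agent.T2H32.CM.E A ψ) n ω / ∑ k ∈ range n, vv ψ k) atTop
        (𝓝 (Real.exp (L - 1 / 2))) := by
  classical
  have := prob h
  obtain ⟨C0, hC0, hEy⟩ := E_y_le h
  have hC : ∀ C : ℕ, ∀ᵐ ω ∂P, ∀ L : ℝ, Tendsto (fun k => Z A k ω - Real.log k) atTop (𝓝 L) →
      (∀ k, Z A (k + 1) ω ≤ Real.log k + C) →
      Tendsto (fun n => Pool.Agent.T2H32.CM.S (Pool.Agent.T2H32.CM.E A ψ) n ω / ∑ k ∈ range n, vv ψ k) atTop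
        (𝓝 (Real.exp (L - 1 / 2))) := by
    intro C
    obtain ⟨K, hK⟩ := eventually_atTop.1 ((h_small ψ hψ).and ((trunc_bd ψ hψ C (Nat.cast_nonneg C)).and
      (eventually_ge_atTop 3)))
    have hK3 : 3 ≤ K := (hK K le_rfl).2.2
    set v : ℕ → ℝ := fun k => if K ≤ k then Real.exp (-ψ k) / (k * Real.log k) else 0 with hv
    set f : ℕ → ℝ := fun k => if K ≤ k then Real.exp (-ψ k) / k else 0 with hf
    have hvv : ∀ k ≥ K, vv ψ k = v k := by
      intro k hk
      simp only [vv, hv]
      rw [if_pos (by omega), if_pos hk]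
    have hf0 : ∀ k, 0 ≤ f k := by
      intro k
      simp only [hf]
      split_ifs
      · positivity
      · exact le_rfl
    have hf1 : ∀ k, f k ≤ 1 := by
      intro k
      simp only [hf]
      split_ifs with hk
      · exact (hK k hk).1
      · exact zero_le_one
    have hfv : ∀ k, (if 3 ≤ k then f k / Real.log k else 0) = v k := by
      intro k
      simp only [hf, hv]
      by_cases hk : K ≤ k
      · rw [if_pos (by omega), if_pos hk, if_pos hk, div_div]
      · rw [if_neg hk, if_neg hk]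
        split_ifs <;> simp
    have hv0 : ∀ k, 0 ≤ v k := by
      intro k
      simp only [hv]
      split_ifs
      · have := Real.log_natCast_nonneg k
        positivity
      · exact le_rfl
    have hv1 : ∀ k, v k ≤ 1 := by
      intro k
      rw [← hfv k]
      split_ifs with h3
      · rw [div_le_one (by linarith [log_ge_one k h3])]
        linarith [log_ge_one k h3, hf1 k]
      · exact zero_le_one
    have hdiv : Tendsto (fun n => ∑ k ∈ range n, v k) atTop atTop := div_change _ _ K hvv hF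
    have h1 := slln_A h f hf0 hf1 (by simp only [hfv]; exact hdiv)
    have h2 := slln2 (P := P)
      (fun k ω => gg K C k (S A (k + 1) ω) * ind (Vd A k (Pool.Agent.T2H32.CM.m ψ k)) ω)
      (fun k ω => gg K C k (S A (k + 1) ω) * (1 - y (S A (k + 1) ω)) ^ (Pool.Agent.T2H32.CM.m ψ k))
      v (Real.exp (2 * C) * C0) (by positivity) hv0 hv1 hdiv
      (fun k => D2_memLp h k _ _) (fun k l hkl => orth2 h K C (Pool.Agent.T2H32.CM.m ψ) k l hkl) (by
        intro k
        by_cases hk : K ≤ k
        · have hk3 : 3 ≤ k := by omega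
          have hL := log_ge_one k hk3
          have h3 := sq2 h K C (Pool.Agent.T2H32.CM.m ψ k) k (by omega)
            (Real.exp (2 * C) * (Real.exp (-ψ k) / k)) (by positivity) (hK k hk).2.1
          refine h3.trans ?_
          have h4 := hEy k hk3
          calc Real.exp (2 * C) * (Real.exp (-ψ k) / k) * ∫ ω, y (S A k ω) ∂P
              ≤ Real.exp (2 * C) * (Real.exp (-ψ k) / k) * (C0 / Real.log k) := by gcongr
            _ = Real.exp (2 * C) * C0 * v k := by
              simp only [hv]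
              rw [if_pos hk]
              field_simp
        · have h3 : ∀ T, gg K C k T = 0 := fun T => by
            unfold gg
            rw [if_neg (fun h' => hk h'.1)]
          simp only [h3, zero_mul, sub_zero, hv, if_neg hk, mul_zero]
          simp)
    filter_upwards [h1, h2] with ω hω1 hω2 L hL hbd
    simp only [hfv] at hω1
    set c := Real.exp (L - 1 / 2) with hc
    set q : ℕ → ℝ := fun k => (1 - y (S A (k + 1) ω)) ^ (Pool.Agent.T2H32.CM.m ψ k) with hq
    set r : ℕ → ℝ := fun k => if 3 ≤ k then f k * ind (A k) ω else 0 with hr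
    have hr0 : ∀ k, 0 ≤ r k := by
      intro k
      simp only [hr]
      split_ifs
      · exact mul_nonneg (hf0 k) (ind_nonneg _ _)
      · exact le_rfl
    have hrdiv : Tendsto (fun n => ∑ k ∈ range n, r k) atTop atTop := by
      refine (hω1.pos_mul_atTop one_pos hdiv).congr' ?_
      filter_upwards [hdiv.eventually_gt_atTop 0] with n hn
      field_simp
    have hg : ∀ k, gg K C k (S A (k + 1) ω) = if K ≤ k then ind (A k) ω else 0 := by
      intro k
      unfold gg
      by_cases hk : K ≤ k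
      · by_cases hA : ω ∈ A k
        · rw [if_pos ⟨hk, (mem_S A (k + 1) ω k).2 ⟨by omega, hA⟩, hbd k⟩, if_pos hk, ind_of_mem _ _ hA]
        · rw [if_neg (fun h' => hA ((mem_S A (k + 1) ω k).1 h'.2.1).2), if_pos hk, ind_of_notMem _ _ hA]
      · rw [if_neg (fun h' => hk h'.1), if_neg hk]
    have hql := q_lim ψ hψ (fun k => Z A (k + 1) ω) L (Z_shift A ω L hL)
    have hw : (fun k => gg K C k (S A (k + 1) ω) * q k - c * r k) =o[atTop] r := by
      have h3 : Tendsto (fun k : ℕ => q k * (k * Real.exp (ψ k)) - c) atTop (𝓝 0) := by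
        have h4 := hql.sub_const c
        rw [sub_self] at h4
        refine h4.congr fun k => ?_
        simp only [hq, Z, inv_inv]
      have h4 : (fun k => r k * (q k * (k * Real.exp (ψ k)) - c)) =o[atTop] (fun k => r k * 1) :=
        (Asymptotics.isBigO_refl _ _).mul_isLittleO ((Asymptotics.isLittleO_one_iff ℝ).2 h3)
      simp only [mul_one] at h4
      refine h4.congr' ?_ EventuallyEq.rfl
      filter_upwards [eventually_ge_atTop K] with k hk
      have hk0 : (0 : ℝ) < k := by exact_mod_cast (by omega : 0 < k)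
      rw [hg k, if_pos hk]
      simp only [hr, hf]
      rw [if_pos (by omega), if_pos hk, Real.exp_neg]
      have h5 := Real.exp_pos (ψ k)
      field_simp
    have h3 := ratio_sum r _ hr0 hrdiv c hw
    have h4 : Tendsto (fun n => (∑ k ∈ range n, gg K C k (S A (k + 1) ω) * q k) / ∑ k ∈ range n, v k) atTop
        (𝓝 c) := by
      have h5 := h3.mul hω1
      rw [mul_one] at h5
      refine h5.congr' ?_
      filter_upwards [hdiv.eventually_gt_atTop 0, hrdiv.eventually_gt_atTop 0] with n hn hn'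
      field_simp
    have h5 := hω2 (fun k => mul_nonneg (gg_nonneg _ _ _ _) (ind_nonneg _ _)) c h4
    refine ratio_change _ _ v (vv ψ) K ?_ (fun k hk => (hvv k hk).symm) hdiv c h5
    intro k hk
    rw [hg k, if_pos hk]
    by_cases hA : ω ∈ A k
    · by_cases hV : ω ∈ Vd A k (Pool.Agent.T2H32.CM.m ψ k)
      · rw [ind_of_mem _ _ hA, ind_of_mem _ _ hV, Set.indicator_of_mem ((E_iff A ψ k ω).2 ⟨hA, hV⟩)]
        norm_num
      · rw [ind_of_notMem _ _ hV, Set.indicator_of_notMem (fun h' => hV ((E_iff A ψ k ω).1 h').2)]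
        norm_num
    · rw [ind_of_notMem _ _ hA, Set.indicator_of_notMem (fun h' => hA ((E_iff A ψ k ω).1 h').1)]
      norm_num
  filter_upwards [ae_all_iff.2 hC] with ω hω L hL
  obtain ⟨B, hB⟩ := (Z_shift A ω L hL).bddAbove_range
  obtain ⟨C, hC⟩ := exists_nat_ge B
  refine hω C L hL fun k => ?_
  have h1 : Z A (k + 1) ω - Real.log k ≤ B := hB ⟨k, rfl⟩
  linarith

/-- **Convergent case.** -/
theorem main_conv (h : Model P E A) (ψ : ℕ → ℝ) (hψ : Tendsto (fun k : ℕ => ψ k / Real.log k) atTop (𝓝 0))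
    (hF : ¬ Tendsto (fun n => ∑ k ∈ range n, vv ψ k) atTop atTop) :
    ∀ᵐ ω ∂P, {k | ω ∈ Pool.Agent.T2H32.CM.E A ψ k}.Finite := by
  classical
  have := prob h
  obtain ⟨C0, hC0, hEy⟩ := E_y_le h
  have hs : Summable (vv ψ) := by
    by_contra h'
    exact hF ((not_summable_iff_tendsto_nat_atTop_of_nonneg (vv_nonneg ψ)).1 h')
  have hC : ∀ C : ℕ, ∀ᵐ ω ∂P, (∀ k, Z A (k + 1) ω ≤ Real.log k + C) →
      {k | ω ∈ Pool.Agent.T2H32.CM.E A ψ k}.Finite := by
    intro C
    obtain ⟨K, hK⟩ := eventually_atTop.1 ((trunc_bd ψ hψ C (Nat.cast_nonneg C)).and (eventually_ge_atTop 3))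
    have hK3 : 3 ≤ K := (hK K le_rfl).2
    set B : ℕ → Set Ω := fun k => {ω | gg K C k (S A (k + 1) ω) = 1} ∩ Vd A k (Pool.Agent.T2H32.CM.m ψ k) with hB
    have hBm : ∀ k, MeasurableSet (B k) := fun k =>
      ((phi_meas h (k + 1) (gg K C k)) (measurableSet_singleton 1)).inter (Vd_meas h k _)
    have hPB : ∀ k, P.real (B k) ≤ Real.exp (2 * C) * C0 * vv ψ k := by
      intro k
      by_cases hk : K ≤ k
      · have hk3 : 3 ≤ k := by omega
        have hL := log_ge_one k hk3
        have e : P.real (B k) = ∫ ω, gg K C k (S A (k + 1) ω) * ind (Vd A k (Pool.Agent.T2H32.CM.m ψ k)) ω ∂P := by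
          have e1 : (fun ω => gg K C k (S A (k + 1) ω) * ind (Vd A k (Pool.Agent.T2H32.CM.m ψ k)) ω) = ind (B k) := by
            funext ω
            by_cases h1 : K ≤ k ∧ k ∈ S A (k + 1) ω ∧ (y (S A (k + 1) ω))⁻¹ ≤ Real.log k + C
            · have h2 : gg K C k (S A (k + 1) ω) = 1 := by unfold gg; rw [if_pos h1]
              by_cases h3 : ω ∈ Vd A k (Pool.Agent.T2H32.CM.m ψ k)
              · rw [h2, ind_of_mem _ _ h3, ind_of_mem (B k) ω ⟨h2, h3⟩, one_mul]
              · rw [ind_of_notMem _ _ h3, ind_of_notMem (B k) ω (fun h' => h3 h'.2), mul_zero]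
            · have h2 : gg K C k (S A (k + 1) ω) = 0 := by unfold gg; rw [if_neg h1]
              rw [h2, zero_mul, ind_of_notMem]
              rintro ⟨h3, -⟩
              have h4 : gg K C k (S A (k + 1) ω) = 1 := h3
              rw [h2] at h4
              exact zero_ne_one h4
          rw [e1]
          unfold ind
          rw [integral_indicator_const _ (hBm k)]
          simp
        rw [e]
        refine (first2 h K C (Pool.Agent.T2H32.CM.m ψ k) k (by omega)
          (Real.exp (2 * C) * (Real.exp (-ψ k) / k)) (by positivity) (hK k hk).1).trans ?_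
        have h4 := hEy k hk3
        calc Real.exp (2 * C) * (Real.exp (-ψ k) / k) * ∫ ω, y (S A k ω) ∂P
            ≤ Real.exp (2 * C) * (Real.exp (-ψ k) / k) * (C0 / Real.log k) := by gcongr
          _ = Real.exp (2 * C) * C0 * vv ψ k := by
            unfold vv
            rw [if_pos hk3]
            field_simp
      · have e : B k = ∅ := by
          rw [Set.eq_empty_iff_forall_notMem]
          rintro ω ⟨h1, -⟩
          have h2 : gg K C k (S A (k + 1) ω) = 1 := h1
          unfold gg at h2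
          rw [if_neg (fun h' => hk h'.1)] at h2
          exact zero_ne_one h2
        rw [e, measureReal_empty]
        have := vv_nonneg ψ k
        positivity
    have hs2 : Summable (fun k => P.real (B k)) :=
      Summable.of_nonneg_of_le (fun _ => measureReal_nonneg) hPB (hs.mul_left _)
    have h3 : ∑' k, P (B k) ≠ ∞ := by
      have h4 := hs2.tsum_ofReal_ne_top
      simpa [measureReal_def, ENNReal.ofReal_toReal, measure_ne_top] using h4
    filter_upwards [ae_finite_setOfPred_mem h3] with ω hω hbd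
    have h5 : {k | ω ∈ Pool.Agent.T2H32.CM.E A ψ k} ⊆ {k | ω ∈ B k} ∪ (range K : Set ℕ) := by
      intro k hk
      by_cases hkK : K ≤ k
      · left
        have h6 := (E_iff A ψ k ω).1 hk
        refine ⟨?_, h6.2⟩
        show gg K C k (S A (k + 1) ω) = 1
        unfold gg
        rw [if_pos ⟨hkK, (mem_S A (k + 1) ω k).2 ⟨by omega, h6.1⟩, hbd k⟩]
      · right
        simp only [coe_range, Set.mem_Iio]
        omega
    exact (hω.union (finite_toSet _)).subset h5
  filter_upwards [ae_all_iff.2 hC, Z_conv h] with ω hω ⟨L, hL⟩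
  obtain ⟨B, hB⟩ := (Z_shift A ω L hL).bddAbove_range
  obtain ⟨C, hC⟩ := exists_nat_ge B
  refine hω C fun k => ?_
  have h1 : Z A (k + 1) ω - Real.log k ≤ B := hB ⟨k, rfl⟩
  linarith

end Pool.Agent.T2H32.HK
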