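import Pool.Agent.T2H32.HK.Law

set_option autoImplicit false

/-! # The Hawkins random sieve: Mertens' product -/

open MeasureTheory ProbabilityTheory Filter Topology Finset
open scoped ENNReal

namespace Pool.Agent.T2H32.HK

variable {Ω : Type*} [MeasurableSpace Ω] {P : Measure Ω} {E : ℕ → ℕ → Set Ω} {A : ℕ → Set Ω}

omit [MeasurableSpace Ω] in
theorem S_succ (A : ℕ → Set Ω) (n : ℕ) (ω : Ω) :
    (ω ∈ A n → S A (n + 1) ω = insert n (S A n ω)) ∧ (ω ∉ A n → S A (n + 1) ω = S A n ω) := by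
  constructor
  · intro h
    ext j
    rw [mem_S, mem_insert, mem_S]
    constructor
    · rintro ⟨h1, h2⟩
      by_cases h3 : j = n
      · exact Or.inl h3
      · exact Or.inr ⟨by omega, h2⟩
    · rintro (h1 | ⟨h1, h2⟩)
      · subst h1
        exact ⟨by omega, h⟩
      · exact ⟨by omega, h2⟩
  · intro h
    ext j
    rw [mem_S, mem_S]
    constructor
    · rintro ⟨h1, h2⟩
      refine ⟨?_, h2⟩
      by_contra h3
      have : j = n := by omega
      subst this
      exact h h2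
    · rintro ⟨h1, h2⟩
      exact ⟨by omega, h2⟩

theorem y_pos (h : Model P E A) (n : ℕ) (ω : Ω) : 0 < y (S A n ω) := by
  refine prod_pos fun j hj => ?_
  have h1 : 2 ≤ j := ((h.sieve ω j).1 ((mem_S A n ω j).1 hj).2).1
  have h2 : (2 : ℝ) ≤ j := by exact_mod_cast h1
  have h3 : 1 / (j : ℝ) ≤ 1 / 2 := by gcongr
  linarith

theorem y_le_one (h : Model P E A) (n : ℕ) (ω : Ω) : y (S A n ω) ≤ 1 := by
  refine prod_le_one (fun j hj => ?_) (fun j hj => ?_)
  · have h1 : 2 ≤ j := ((h.sieve ω j).1 ((mem_S A n ω j).1 hj).2).1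
    have h2 : (2 : ℝ) ≤ j := by exact_mod_cast h1
    have h3 : 1 / (j : ℝ) ≤ 1 / 2 := by gcongr
    linarith
  · have : 0 ≤ 1 / (j : ℝ) := by positivity
    linarith

/-- the reciprocal of `y` -/
noncomputable def Z (A : ℕ → Set Ω) (n : ℕ) (ω : Ω) : ℝ := (y (S A n ω))⁻¹

theorem Z_pos (h : Model P E A) (n : ℕ) (ω : Ω) : 0 < Z A n ω := inv_pos.2 (y_pos h n ω)

theorem one_le_Z (h : Model P E A) (n : ℕ) (ω : Ω) : 1 ≤ Z A n ω :=
  (one_le_inv₀ (y_pos h n ω)).2 (y_le_one h n ω)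

theorem y_succ (h : Model P E A) (n : ℕ) (hn : 2 ≤ n) (ω : Ω) :
    y (S A (n + 1) ω) = y (S A n ω) * (1 - ind (A n) ω / n) := by
  by_cases hA : ω ∈ A n
  · rw [(S_succ A n ω).1 hA, ind_of_mem _ _ hA]
    unfold y
    rw [prod_insert (fun hc => absurd ((mem_S A n ω n).1 hc).1 (lt_irrefl _)), mul_comm]
  · rw [(S_succ A n ω).2 hA, ind_of_notMem _ _ hA]
    simp

theorem Z_succ (h : Model P E A) (n : ℕ) (hn : 2 ≤ n) (ω : Ω) :
    Z A (n + 1) ω = Z A n ω * (1 + ind (A n) ω / (n - 1)) := by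
  unfold Z
  rw [y_succ h n hn ω, mul_inv]
  congr 1
  have h2 : (2 : ℝ) ≤ n := by exact_mod_cast hn
  by_cases hA : ω ∈ A n
  · rw [ind_of_mem _ _ hA]
    have : (n : ℝ) - 1 ≠ 0 := by linarith
    have : (n : ℝ) ≠ 0 := by linarith
    field_simp
    ring
  · rw [ind_of_notMem _ _ hA]
    simp

theorem Z_two (h : Model P E A) (ω : Ω) : Z A 2 ω = 1 := by
  have e : S A 2 ω = ∅ := by
    ext j
    rw [mem_S]
    simp only [notMem_empty, iff_false, not_and]
    intro h1 h2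
    have := ((h.sieve ω j).1 h2).1
    omega
  unfold Z y
  rw [e]
  simp

/-- the martingale -/
noncomputable def M (A : ℕ → Set Ω) (n : ℕ) (ω : Ω) : ℝ := Z A (n + 2) ω - ∑ i ∈ range n, 1 / ((i : ℝ) + 1)

/-- its increments -/
theorem M_succ (h : Model P E A) (n : ℕ) (ω : Ω) :
    M A (n + 1) ω = M A n ω + Z A (n + 2) ω / (n + 1) * (ind (A (n + 2)) ω - y (S A (n + 2) ω)) := by
  unfold M
  rw [Z_succ h (n + 2) (by omega) ω, sum_range_succ]
  have h1 := y_pos h (n + 2) ω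
  have h2 : Z A (n + 2) ω * y (S A (n + 2) ω) = 1 := by
    unfold Z
    exact inv_mul_cancel₀ h1.ne'
  have h3 : ((n : ℝ) + 1) ≠ 0 := by positivity
  push_cast
  have h4 : ((n : ℝ) + 2 - 1) = n + 1 := by ring
  rw [h4]
  field_simp
  linear_combination h2

theorem int_phi_D (h : Model P E A) (n : ℕ) (φ : Finset ℕ → ℝ) :
    ∫ ω, φ (S A (n + 2) ω) * (ind (A (n + 2)) ω - y (S A (n + 2) ω)) ∂P = 0 := by
  have := prob h
  have h1 := int_A h (n + 2) (by omega) φ
  obtain ⟨C, hC⟩ := phi_bdd A (n + 2) φ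
  have i1 : Integrable (fun ω => φ (S A (n + 2) ω) * ind (A (n + 2)) ω) P := by
    refine Integrable.of_bound ((phi_meas h _ φ).mul (ind_meas _ (A_meas h _))).aestronglyMeasurable C
      (Eventually.of_forall fun ω => ?_)
    rw [Real.norm_eq_abs, abs_mul, abs_of_nonneg (ind_nonneg _ _)]
    calc |φ (S A (n + 2) ω)| * ind (A (n + 2)) ω ≤ |φ (S A (n + 2) ω)| * 1 := by
          gcongr
          exact ind_le _ _
      _ ≤ C := by rw [mul_one]; exact hC ω
  have i2 : Integrable (fun ω => φ (S A (n + 2) ω) * y (S A (n + 2) ω)) P :=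
    phi_int h (n + 2) (fun T => φ T * y T)
  have e : (fun ω => φ (S A (n + 2) ω) * (ind (A (n + 2)) ω - y (S A (n + 2) ω))) =
      fun ω => φ (S A (n + 2) ω) * ind (A (n + 2)) ω - φ (S A (n + 2) ω) * y (S A (n + 2) ω) := by
    funext ω
    ring
  rw [e, integral_sub i1 i2, h1, sub_self]

theorem int_phi_D2 (h : Model P E A) (n : ℕ) (φ : Finset ℕ → ℝ) :
    ∫ ω, φ (S A (n + 2) ω) * (ind (A (n + 2)) ω - y (S A (n + 2) ω)) ^ 2 ∂P =
      ∫ ω, φ (S A (n + 2) ω) * (y (S A (n + 2) ω) * (1 - y (S A (n + 2) ω))) ∂P := by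
  have := prob h
  have h1 := int_phi_D h n (fun T => φ T * (1 - 2 * y T))
  have e : (fun ω => φ (S A (n + 2) ω) * (ind (A (n + 2)) ω - y (S A (n + 2) ω)) ^ 2) =
      fun ω => (φ (S A (n + 2) ω) * (1 - 2 * y (S A (n + 2) ω))) * (ind (A (n + 2)) ω - y (S A (n + 2) ω)) +
        φ (S A (n + 2) ω) * (y (S A (n + 2) ω) * (1 - y (S A (n + 2) ω))) := by
    funext ω
    have h2 : ind (A (n + 2)) ω ^ 2 = ind (A (n + 2)) ω := by
      by_cases hA : ω ∈ A (n + 2)
      · rw [ind_of_mem _ _ hA]; norm_num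
      · rw [ind_of_notMem _ _ hA]; norm_num
    linear_combination φ (S A (n + 2) ω) * h2
  obtain ⟨C, hC⟩ := phi_bdd A (n + 2) (fun T => φ T * (1 - 2 * y T))
  have i1 : Integrable (fun ω => (φ (S A (n + 2) ω) * (1 - 2 * y (S A (n + 2) ω))) *
      (ind (A (n + 2)) ω - y (S A (n + 2) ω))) P := by
    refine Integrable.of_bound (((phi_meas h _ (fun T => φ T * (1 - 2 * y T)))).mul
      ((ind_meas _ (A_meas h _)).sub (phi_meas h _ y))).aestronglyMeasurable C
      (Eventually.of_forall fun ω => ?_)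
    rw [Real.norm_eq_abs, abs_mul]
    have h3 : |ind (A (n + 2)) ω - y (S A (n + 2) ω)| ≤ 1 := by
      rw [abs_le]
      have a1 := ind_nonneg (A (n + 2)) ω
      have a2 := ind_le (A (n + 2)) ω
      have a3 := y_pos h (n + 2) ω
      have a4 := y_le_one h (n + 2) ω
      constructor <;> linarith
    have h4 := hC ω
    calc _ ≤ |φ (S A (n + 2) ω) * (1 - 2 * y (S A (n + 2) ω))| * 1 := by gcongr
      _ ≤ C := by rw [mul_one]; exact h4
  rw [e, integral_add i1 (phi_int h (n + 2) (fun T => φ T * (y T * (1 - y T)))), h1, zero_add]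

/-- the filtration -/
noncomputable def 𝒢 (h : Model P E A) : Filtration ℕ (inferInstance : MeasurableSpace Ω) where
  seq n := MeasurableSpace.comap (S A (n + 2)) ⊤
  mono' := by
    intro i j hij
    rintro s ⟨U, -, rfl⟩
    refine ⟨{T | T.filter (fun k => k < i + 2) ∈ U}, trivial, ?_⟩
    ext ω
    simp only [Set.mem_preimage, Set.mem_ofPred_eq]
    have e : (S A (j + 2) ω).filter (fun k => k < i + 2) = S A (i + 2) ω := by
      ext k
      rw [mem_filter, mem_S, mem_S]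
      constructor
      · rintro ⟨⟨h1, h2⟩, h3⟩
        exact ⟨h3, h2⟩
      · rintro ⟨h1, h2⟩
        exact ⟨⟨by omega, h2⟩, h1⟩
    rw [e]
  le' := by
    intro n
    rintro s ⟨U, -, rfl⟩
    classical
    have e : S A (n + 2) ⁻¹' U = ⋃ T ∈ (range (n + 2)).powerset.filter (fun T => T ∈ U), {ω | S A (n + 2) ω = T} := by
      ext ω
      simp only [Set.mem_preimage, Set.mem_iUnion, mem_filter, mem_powerset, Set.mem_ofPred_eq, exists_prop,
        exists_eq_right']
      constructor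
      · intro h1
        exact ⟨S_sub A _ ω, h1⟩
      · rintro ⟨-, h1⟩
        exact h1
    rw [e]
    exact Finset.measurableSet_biUnion _ fun T _ => S_meas h _ T

theorem M_adapted (h : Model P E A) : StronglyAdapted (𝒢 h) (M A) := by
  intro n
  have h1 : M A n = (fun T : Finset ℕ => (y T)⁻¹ - ∑ i ∈ range n, 1 / ((i : ℝ) + 1)) ∘ (S A (n + 2)) := rfl
  rw [h1]
  have h2 : @Measurable Ω ℝ (MeasurableSpace.comap (S A (n + 2)) ⊤) _
      ((fun T : Finset ℕ => (y T)⁻¹ - ∑ i ∈ range n, 1 / ((i : ℝ) + 1)) ∘ (S A (n + 2))) := by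
    intro s _
    exact ⟨(fun T : Finset ℕ => (y T)⁻¹ - ∑ i ∈ range n, 1 / ((i : ℝ) + 1)) ⁻¹' s, trivial, rfl⟩
  exact h2.stronglyMeasurable

theorem M_int (h : Model P E A) (n : ℕ) : Integrable (M A n) P :=
  phi_int h (n + 2) (fun T => (y T)⁻¹ - ∑ i ∈ range n, 1 / ((i : ℝ) + 1))

theorem M_mart (h : Model P E A) : Martingale (M A) (𝒢 h) P := by
  have := prob h
  refine martingale_of_setIntegral_eq_succ (M_adapted h) (M_int h) ?_
  rintro n s ⟨U, -, rfl⟩
  classical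
  have hms : MeasurableSet (S A (n + 2) ⁻¹' U) := (𝒢 h).le n _ ⟨U, trivial, rfl⟩
  rw [← integral_indicator hms, ← integral_indicator hms]
  set φ : Finset ℕ → ℝ := fun T => (if T ∈ U then 1 else 0) * ((y T)⁻¹ / (n + 1)) with hφ
  have h1 := int_phi_D h n φ
  have e : (fun ω => (S A (n + 2) ⁻¹' U).indicator (M A (n + 1)) ω) =
      fun ω => (S A (n + 2) ⁻¹' U).indicator (M A n) ω +
        φ (S A (n + 2) ω) * (ind (A (n + 2)) ω - y (S A (n + 2) ω)) := by
    funext ω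
    by_cases hU : S A (n + 2) ω ∈ U
    · have hU' : ω ∈ S A (n + 2) ⁻¹' U := hU
      rw [Set.indicator_of_mem hU', Set.indicator_of_mem hU', M_succ h n ω, hφ]
      simp only [if_pos hU, one_mul]
      rfl
    · have hU' : ω ∉ S A (n + 2) ⁻¹' U := hU
      rw [Set.indicator_of_notMem hU', Set.indicator_of_notMem hU', hφ]
      simp only [if_neg hU, zero_mul, add_zero]
  have i1 : Integrable (fun ω => (S A (n + 2) ⁻¹' U).indicator (M A n) ω) P := (M_int h n).indicator hms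
  have i2 : Integrable (fun ω => φ (S A (n + 2) ω) * (ind (A (n + 2)) ω - y (S A (n + 2) ω))) P := by
    have i3 : Integrable (fun ω => (S A (n + 2) ⁻¹' U).indicator (M A (n + 1)) ω) P :=
      (M_int h (n + 1)).indicator hms
    have e2 : (fun ω => φ (S A (n + 2) ω) * (ind (A (n + 2)) ω - y (S A (n + 2) ω))) =
      fun ω => (S A (n + 2) ⁻¹' U).indicator (M A (n + 1)) ω - (S A (n + 2) ⁻¹' U).indicator (M A n) ω := by
      funext ω
      have h5 : (S A (n + 2) ⁻¹' U).indicator (M A (n + 1)) ω = (S A (n + 2) ⁻¹' U).indicator (M A n) ω +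
        φ (S A (n + 2) ω) * (ind (A (n + 2)) ω - y (S A (n + 2) ω)) := congrFun e ω
      rw [h5]
      ring
    rw [e2]
    exact i3.sub i1
  rw [e, integral_add i1 i2, h1, add_zero]

/-- `E Z = 1 + H` -/
theorem E_Z (h : Model P E A) (n : ℕ) : ∫ ω, Z A (n + 2) ω ∂P = 1 + ∑ i ∈ range n, 1 / ((i : ℝ) + 1) := by
  have := prob h
  induction n with
  | zero =>
    simp only [Nat.zero_add, Z_two h, range_zero, sum_empty, add_zero, integral_const, probReal_univ, smul_eq_mul,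
      mul_one]
  | succ n ih =>
    have e : (fun ω => Z A (n + 1 + 2) ω) = fun ω => Z A (n + 2) ω + (1 / ((n : ℝ) + 1) +
        ((y (S A (n + 2) ω))⁻¹ / (n + 1)) * (ind (A (n + 2)) ω - y (S A (n + 2) ω))) := by
      funext ω
      have h1 := M_succ h n ω
      unfold M at h1
      rw [sum_range_succ] at h1
      have h2 : Z A (n + 2) ω = (y (S A (n + 2) ω))⁻¹ := rfl
      rw [← h2]
      linarith
    have h1 := int_phi_D h n (fun T => (y T)⁻¹ / (n + 1))
    have i1 : Integrable (fun ω => Z A (n + 2) ω) P := phi_int h (n + 2) (fun T => (y T)⁻¹)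
    have i0 : Integrable (fun ω => Z A (n + 1 + 2) ω) P := phi_int h (n + 1 + 2) (fun T => (y T)⁻¹)
    have i2 : Integrable (fun ω => ((y (S A (n + 2) ω))⁻¹ / (n + 1)) * (ind (A (n + 2)) ω - y (S A (n + 2) ω))) P := by
      have e2 : (fun ω => ((y (S A (n + 2) ω))⁻¹ / ((n : ℝ) + 1)) * (ind (A (n + 2)) ω - y (S A (n + 2) ω))) =
          fun ω => Z A (n + 1 + 2) ω - Z A (n + 2) ω - 1 / ((n : ℝ) + 1) := by
        funext ω
        have h5 : Z A (n + 1 + 2) ω = Z A (n + 2) ω + (1 / ((n : ℝ) + 1) +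
          ((y (S A (n + 2) ω))⁻¹ / (n + 1)) * (ind (A (n + 2)) ω - y (S A (n + 2) ω))) := congrFun e ω
        rw [h5]
        ring
      rw [e2]
      exact (i0.sub i1).sub (integrable_const _)
    have i4 : Integrable (fun ω => 1 / ((n : ℝ) + 1) +
        ((y (S A (n + 2) ω))⁻¹ / (n + 1)) * (ind (A (n + 2)) ω - y (S A (n + 2) ω))) P := (integrable_const _).add i2
    rw [e, integral_add i1 i4, integral_add (integrable_const _) i2, ih, h1,
      integral_const, probReal_univ, sum_range_succ]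
    simp only [smul_eq_mul, one_mul, add_zero]
    ring

theorem harm_le (n : ℕ) : 1 + ∑ i ∈ range n, 1 / ((i : ℝ) + 1) ≤ 2 * Real.sqrt (n + 1) := by
  have h1 : ∑ i ∈ range n, 1 / ((i : ℝ) + 1) ≤ 1 + Real.log (n + 1) := by
    have h2 := harmonic_le_one_add_log n
    have h3 : (harmonic n : ℝ) = ∑ i ∈ range n, 1 / ((i : ℝ) + 1) := by
      unfold harmonic
      push_cast
      refine sum_congr rfl fun i _ => ?_
      rw [one_div]
    rw [← h3]
    refine h2.trans ?_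
    rcases Nat.eq_zero_or_pos n with h0 | h0
    · rw [h0]; simp
    · have : Real.log n ≤ Real.log (n + 1) := Real.log_le_log (by exact_mod_cast h0) (by linarith)
      linarith
  have h2 : Real.log ((n : ℝ) + 1) ≤ 2 * (Real.sqrt (n + 1) - 1) := by
    have h3 : (0 : ℝ) < Real.sqrt (n + 1) := Real.sqrt_pos.2 (by positivity)
    have h4 := Real.log_le_sub_one_of_pos h3
    rw [Real.log_sqrt (by positivity)] at h4
    linarith
  linarith

/-- the increments are square summable -/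
theorem D_sq (h : Model P E A) (n : ℕ) : ∫ ω, (M A (n + 1) ω - M A n ω) ^ 2 ∂P ≤ 2 / ((n : ℝ) + 1) ^ (3 / 2 : ℝ) := by
  have := prob h
  have e : (fun ω => (M A (n + 1) ω - M A n ω) ^ 2) = fun ω =>
      (((y (S A (n + 2) ω))⁻¹ / (n + 1)) ^ 2) * (ind (A (n + 2)) ω - y (S A (n + 2) ω)) ^ 2 := by
    funext ω
    have h1 := M_succ h n ω
    have h2 : Z A (n + 2) ω = (y (S A (n + 2) ω))⁻¹ := rfl
    rw [h1, ← h2]
    ring
  rw [e, int_phi_D2 h n (fun T => ((y T)⁻¹ / (n + 1)) ^ 2)]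
  have h1 : ∫ ω, ((y (S A (n + 2) ω))⁻¹ / ((n : ℝ) + 1)) ^ 2 * (y (S A (n + 2) ω) * (1 - y (S A (n + 2) ω))) ∂P ≤
      ∫ ω, Z A (n + 2) ω / ((n : ℝ) + 1) ^ 2 ∂P := by
    refine integral_mono (phi_int h (n + 2) (fun T => ((y T)⁻¹ / ((n : ℝ) + 1)) ^ 2 * (y T * (1 - y T))))
      (phi_int h (n + 2) (fun T => (y T)⁻¹ / ((n : ℝ) + 1) ^ 2)) fun ω => ?_
    have a1 := y_pos h (n + 2) ω
    have a2 : Z A (n + 2) ω = (y (S A (n + 2) ω))⁻¹ := rfl
    simp only
    rw [a2]
    have a3 : 0 < ((n : ℝ) + 1) ^ 2 := by positivity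
    have a4 : ((y (S A (n + 2) ω))⁻¹ / ((n : ℝ) + 1)) ^ 2 * (y (S A (n + 2) ω) * (1 - y (S A (n + 2) ω))) =
        (y (S A (n + 2) ω))⁻¹ / ((n : ℝ) + 1) ^ 2 * (1 - y (S A (n + 2) ω)) := by
      field_simp
    rw [a4]
    have a5 : 0 ≤ (y (S A (n + 2) ω))⁻¹ / ((n : ℝ) + 1) ^ 2 := by positivity
    nlinarith
  refine h1.trans ?_
  rw [integral_div, E_Z h n]
  have h2 := harm_le n
  have h3 : (0 : ℝ) < (n : ℝ) + 1 := by positivity
  rw [div_le_div_iff₀ (by positivity) (by positivity)]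
  have e1 : ((n : ℝ) + 1) ^ 2 = Real.sqrt (n + 1) * ((n : ℝ) + 1) ^ (3 / 2 : ℝ) := by
    rw [Real.sqrt_eq_rpow, ← Real.rpow_add h3, ← Real.rpow_natCast]
    norm_num
  rw [e1]
  have h4 : 0 ≤ ((n : ℝ) + 1) ^ (3 / 2 : ℝ) := by positivity
  nlinarith [mul_le_mul_of_nonneg_right h2 h4]

end Pool.Agent.T2H32.HK
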